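import Pool.Agent.V8H38.EU.Frame

/-!
# The large cliques of the graph of a frame
-/

namespace Pool.Agent.V8H38.EU

open Finset
open Pool.Agent.V8H38.NL (Chk okXX startOK stepOK evl sym gr mem_gr ps ps_zero ps_succ ps_all)

variable {v M κ D u₀ ρ : ℕ} {F : Frame v M κ}

/-- the chosen touched vertex of a part -/
noncomputable def pickZ (F : Frame v M κ) (A : Fin M → Bool × Fin κ → Fin D → ZMod 2)
    (w : Fin D → ZMod 2) (j : F.J) : {z // z ∈ F.Z} :=
  open Classical in
  if h : ∃ i, F.jA i = j then ⟨F.a h.choose (sym A w h.choose), F.aZ _ _⟩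
  else ⟨F.b ((F.cov j).resolve_left h).choose
    (sym A w ((F.cov j).resolve_left h).choose), F.bZ _ _⟩

theorem pickZ_A (A : Fin M → Bool × Fin κ → Fin D → ZMod 2) (w : Fin D → ZMod 2) (i : Fin M) :
    (pickZ F A w (F.jA i) : Fin v) = F.a i (sym A w i) := by
  have h : ∃ i', F.jA i' = F.jA i := ⟨i, rfl⟩
  unfold pickZ
  rw [dif_pos h]
  simp only
  by_cases hi : h.choose = i
  · rw [hi]
  · exact F.cons _ _ hi h.choose_spec _ _

theorem pickZ_B (A : Fin M → Bool × Fin κ → Fin D → ZMod 2) (w : Fin D → ZMod 2) (i : Fin M) :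
    (pickZ F A w (F.jB i) : Fin v) = F.b i (sym A w i) := by
  have h : ¬ ∃ i', F.jA i' = F.jB i := by
    rintro ⟨i', h⟩
    exact F.hAB _ _ h
  unfold pickZ
  rw [dif_neg h]
  simp only
  have h2 := F.hB ((F.cov (F.jB i)).resolve_left h).choose_spec
  rw [h2]

theorem part_pickZ (A : Fin M → Bool × Fin κ → Fin D → ZMod 2) (w : Fin D → ZMod 2) (j : F.J) :
    F.part (pickZ F A w j) = j := by
  rcases F.cov j with ⟨i, rfl⟩ | ⟨i, rfl⟩
  · rw [pickZ_A, F.pa]
  · rw [pickZ_B, F.pb]

/-- the chosen vertices -/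
noncomputable def pickE (A : Fin M → Bool × Fin κ → Fin D → ZMod 2) (w : Fin D → ZMod 2) :
    TB F D u₀ → TV F D u₀ ρ
  | TB.chk c => TV.chk (c, (ps A w c.1 c.2.1 c.2.2, w c.2.2))
  | TB.re j => TV.re (pickZ F A w j)
  | TB.un i => TV.un i

theorem tag_pickE (A : Fin M → Bool × Fin κ → Fin D → ZMod 2) (w : Fin D → ZMod 2)
    (x : TB F D u₀) : tag (pickE (ρ := ρ) A w x) = some x := by
  rcases x with x | x | x
  · rfl
  · simp only [pickE, tag, part_pickZ]
  · rfl

theorem labR_AB (A : Fin M → Bool × Fin κ → Fin D → ZMod 2) (w : Fin D → ZMod 2)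
    (X : Finset (Fin M × Sy κ)) (hX : gr A w ⊆ X) (i i' : Fin M) :
    evl X (F.labR (F.a i (sym A w i)) (F.b i' (sym A w i'))) = true := by
  by_cases he : ∃ e, F.IsEdge (F.a i (sym A w i)) (F.b i' (sym A w i')) e
  · obtain ⟨e, he⟩ := he
    rw [F.labR_edge he]
    simp only [evl, decide_eq_true_eq]
    apply hX
    rw [mem_gr]
    rcases he with ⟨h1, h2⟩ | ⟨h1, _⟩
    · have h3 : i' = e.1 := by
        apply F.hB
        rw [← F.pb i' (sym A w i'), ← F.pb e.1 e.2, h2]
      have h4 : F.jA i = F.jA e.1 := by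
        rw [← F.pa i (sym A w i), ← F.pa e.1 e.2, h1]
      have h5 : F.a e.1 (sym A w e.1) = F.a e.1 e.2 := by
        by_cases h6 : i = e.1
        · rw [← h1, h6]
        · rw [← h1]
          exact (F.cons _ _ h6 h4 _ _).symm
      refine F.inj e.1 _ _ h5 ?_
      rw [← h2, h3]
    · exact absurd h1 (F.a_ne_b _ _ _ _)
  · unfold Frame.labR
    rw [dif_neg he]
    simp only [evl, decide_eq_true_eq]
    refine ⟨?_, ?_⟩
    · rw [F.pa, F.pb]
      exact F.hAB _ _
    · rintro ⟨i'', ⟨h1, h2⟩ | ⟨h1, h2⟩⟩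
      · rw [F.pa] at h1
        rw [F.pb] at h2
        have h3 := F.hB h2
        subst h3
        apply he
        refine ⟨(i', sym A w i'), Or.inl ⟨?_, rfl⟩⟩
        by_cases h6 : i = i'
        · rw [h6]
        · exact F.cons _ _ h6 h1 _ _
      · rw [F.pa] at h1
        exact F.hAB _ _ h1

theorem labR_AA {j j' : F.J} (z z' : Fin v) (X : Finset (Fin M × Sy κ)) (hne : j ≠ j')
    (hz : F.part z = j) (hz' : F.part z' = j')
    (h : (∃ i i', j = F.jA i ∧ j' = F.jA i') ∨ (∃ i i', j = F.jB i ∧ j' = F.jB i')) :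
    evl X (F.labR z z') = true := by
  have he : ¬ ∃ e, F.IsEdge z z' e := by
    rintro ⟨e, ⟨h1, h2⟩ | ⟨h1, h2⟩⟩
    · have e1 : j = F.jA e.1 := by rw [← hz, h1, F.pa]
      have e2 : j' = F.jB e.1 := by rw [← hz', h2, F.pb]
      rcases h with ⟨i, i', h3, h4⟩ | ⟨i, i', h3, h4⟩
      · exact F.hAB _ _ (h4.symm.trans e2)
      · exact F.hAB _ _ (e1.symm.trans h3)
    · have e1 : j = F.jB e.1 := by rw [← hz, h1, F.pb]
      have e2 : j' = F.jA e.1 := by rw [← hz', h2, F.pa]
      rcases h with ⟨i, i', h3, h4⟩ | ⟨i, i', h3, h4⟩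
      · exact F.hAB _ _ (h3.symm.trans e1)
      · exact F.hAB _ _ (e2.symm.trans h4)
  unfold Frame.labR
  rw [dif_neg he]
  simp only [evl, decide_eq_true_eq]
  refine ⟨by rw [hz, hz']; exact hne, ?_⟩
  rintro ⟨i'', ⟨h1, h2⟩ | ⟨h1, h2⟩⟩
  · rw [hz] at h1
    rw [hz'] at h2
    rcases h with ⟨i, i', h3, h4⟩ | ⟨i, i', h3, h4⟩
    · exact F.hAB _ _ (h4.symm.trans h2)
    · exact F.hAB _ _ (h1.symm.trans h3)
  · rw [hz] at h1
    rw [hz'] at h2
    rcases h with ⟨i, i', h3, h4⟩ | ⟨i, i', h3, h4⟩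
    · exact F.hAB _ _ (h3.symm.trans h1)
    · exact F.hAB _ _ (h2.symm.trans h4)

theorem pick_adj (A : Fin M → Bool × Fin κ → Fin D → ZMod 2) (w : Fin D → ZMod 2)
    (X : Finset (Fin M × Sy κ)) (hX : gr A w ⊆ X)
    (β β' : TB F D u₀) (h : β ≠ β') :
    evl X (labE A (pickE (ρ := ρ) A w β) (pickE (ρ := ρ) A w β')) = true := by
  have hstart : ∀ c : Chk M κ D, startOK (c, (ps A w c.1 c.2.1 c.2.2, w c.2.2)) := by
    intro c hc
    simp only at hc ⊢
    rw [hc, ps_zero]
  have hstep : ∀ c c' : Chk M κ D, stepOK A (c, (ps A w c.1 c.2.1 c.2.2, w c.2.2))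
      (c', (ps A w c'.1 c'.2.1 c'.2.2, w c'.2.2)) := by
    rintro c c' ⟨h1, h2, h3⟩
    simp only at h1 h2 h3 ⊢
    rw [← h3, ← h1, ← h2, ps_succ]
  have hXZ : ∀ (c : Chk M κ D) (j : F.J), okXZ F A (c, (ps A w c.1 c.2.1 c.2.2, w c.2.2))
      (pickZ F A w j) := by
    intro c j
    refine ⟨hstart c, ?_⟩
    rintro ⟨h1, h3⟩
    simp only [part_pickZ] at h1 h3 ⊢
    rw [← ps_succ, h3, ps_all]
    rcases h1 with ⟨h4, h5⟩ | ⟨h4, h5⟩
    · rw [h5, pickZ_A, F.bA _ _ _ h4]
    · rw [h5, pickZ_B, F.bB _ _ _ h4]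
  rcases β with c | c | c <;> rcases β' with c' | c' | c' <;>
    simp only [pickE, labE, evl, decide_eq_true_eq]
  · -- chk chk
    refine ⟨fun hh => h (congrArg TB.chk hh), hstart c, hstart c', fun hh => ?_, hstep c c',
      hstep c' c⟩
    simp only at hh ⊢
    rw [hh]
  · exact hXZ c c'
  · exact hXZ c' c
  · -- re re
    have hcc : c ≠ c' := fun hh => h (congrArg TB.re hh)
    show evl X (F.labR (pickZ F A w c) (pickZ F A w c')) = true
    rcases F.cov c with ⟨i, hi⟩ | ⟨i, hi⟩ <;> rcases F.cov c' with ⟨i', hi'⟩ | ⟨i', hi'⟩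
    · exact labR_AA _ _ X hcc (part_pickZ A w c) (part_pickZ A w c')
        (Or.inl ⟨i, i', hi.symm, hi'.symm⟩)
    · subst hi; subst hi'
      rw [pickZ_A, pickZ_B]
      exact labR_AB A w X hX i i'
    · subst hi; subst hi'
      rw [pickZ_A, pickZ_B, F.labR_comm]
      exact labR_AB A w X hX i' i
    · exact labR_AA _ _ X hcc (part_pickZ A w c) (part_pickZ A w c')
        (Or.inr ⟨i, i', hi.symm, hi'.symm⟩)
  · exact fun hh => h (congrArg TB.un hh)

/-- A choice of pairwise adjacent vertices, one in each block, contains a word of the code. -/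
theorem word_of_choice (hD : 0 < D) (hκ : 0 < κ) (A : Fin M → Bool × Fin κ → Fin D → ZMod 2)
    (X : Finset (Fin M × Sy κ)) (c : TB F D u₀ → TV F D u₀ ρ)
    (hc : ∀ β, tag (c β) = some β)
    (hadj : ∀ β β', β ≠ β' → evl X (labE A (c β) (c β')) = true) : ∃ w, gr A w ⊆ X := by
  have h1 : ∀ e : Chk M κ D, ∃ zw : ZMod 2 × ZMod 2, c (TB.chk e) = TV.chk (e, zw) := by
    intro e
    have := hc (TB.chk e)
    rcases hce : c (TB.chk e) with x | x | x | x <;> rw [hce] at this <;>
      simp only [tag, Option.some.injEq, TB.chk.injEq, reduceCtorEq] at this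
    exact ⟨x.2, by rw [← this]⟩
  have h3 : ∀ j : F.J, ∃ z : {z // z ∈ F.Z}, c (TB.re j) = TV.re z ∧ F.part z = j := by
    intro e
    have := hc (TB.re e)
    rcases hce : c (TB.re e) with x | x | x | x <;> rw [hce] at this <;>
      simp only [tag, Option.some.injEq, TB.re.injEq, reduceCtorEq] at this
    exact ⟨x, rfl, this⟩
  choose zw hzw using h1
  choose z hz hzp using h3
  have hXX : ∀ e e' : Chk M κ D, e ≠ e' → okXX A (e, zw e) (e', zw e') := by
    intro e e' hne
    have := hadj (TB.chk e) (TB.chk e') (by simpa using hne)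
    rw [hzw, hzw] at this
    simpa only [labE, evl, decide_eq_true_eq] using this
  have hXZ : ∀ (e : Chk M κ D) (j : F.J), okXZ F A (e, zw e) (z j) := by
    intro e j
    have := hadj (TB.chk e) (TB.re j) (by simp)
    rw [hzw, hz] at this
    simpa only [labE, evl, decide_eq_true_eq] using this
  have hRR : ∀ i : Fin M, ∃ s : Sy κ, (z (F.jA i) : Fin v) = F.a i s ∧
      (z (F.jB i) : Fin v) = F.b i s ∧ (i, s) ∈ X := by
    intro i
    have := hadj (TB.re (F.jA i)) (TB.re (F.jB i)) (by simpa using F.hAB i i)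
    rw [hz, hz] at this
    simp only [labE] at this
    by_cases he : ∃ x, F.IsEdge (z (F.jA i)) (z (F.jB i)) x
    · obtain ⟨x, hx⟩ := he
      rw [F.labR_edge hx] at this
      have hxX : x ∈ X := by simpa [evl] using this
      rcases hx with ⟨h4, h5⟩ | ⟨h4, h5⟩
      · have h6 : i = x.1 := by
          apply F.hB
          rw [← hzp (F.jB i), h5, F.pb]
        subst h6
        exact ⟨x.2, h4, h5, hxX⟩
      · exfalso
        have h6 := hzp (F.jA i)
        rw [h4, F.pb] at h6
        exact F.hAB _ _ h6.symm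
    · exfalso
      unfold Frame.labR at this
      rw [dif_neg he] at this
      simp only [evl, decide_eq_true_eq] at this
      exact this.2 ⟨i, Or.inl ⟨hzp _, hzp _⟩⟩
  choose s hsA hsB hsX using hRR
  by_cases hM : Nonempty (Fin M)
  · obtain ⟨a₀⟩ := hM
    set b₀ : Bool × Fin κ := (false, ⟨0, hκ⟩) with hb₀
    refine ⟨fun j => (zw (a₀, b₀, j)).2, ?_⟩
    set w : Fin D → ZMod 2 := fun j => (zw (a₀, b₀, j)).2 with hw
    have hw1 : ∀ a b j, (zw (a, b, j)).2 = w j := by
      intro a b j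
      by_cases h : (a, b, j) = (a₀, b₀, j)
      · rw [h]
      · exact (hXX (a, b, j) (a₀, b₀, j) h).2.2.2.1 rfl
    have hzz : ∀ a b (n : ℕ) (hn : n < D), (zw (a, b, ⟨n, hn⟩)).1 = ps A w a b n := by
      intro a b n
      induction n with
      | zero =>
        intro hn
        rw [ps_zero]
        exact (hXZ (a, b, ⟨0, hn⟩) (F.jA a)).1 rfl
      | succ n ih =>
        intro hn
        have hn' : n < D := by omega
        have := (hXX (a, b, ⟨n, hn'⟩) (a, b, ⟨n + 1, hn⟩) (by simp)).2.2.2.2.1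
          ⟨rfl, rfl, rfl⟩
        simp only at this
        rw [this, ih hn', hw1]
        exact (ps_succ A w a b ⟨n, hn'⟩).symm
    have hsym : ∀ i b, s i b = sym A w i b := by
      intro i b
      have this : (zw (i, b, ⟨D - 1, by omega⟩)).1 + A i b ⟨D - 1, by omega⟩ *
          (zw (i, b, ⟨D - 1, by omega⟩)).2 = s i b := by
        cases hv : F.vis i b
        · have := (hXZ (i, b, ⟨D - 1, by omega⟩) (F.jB i)).2
            ⟨Or.inr ⟨hv, hzp _⟩, by simp only; omega⟩
          simp only at this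
          rw [this, hsB, F.bB _ _ _ hv]
        · have := (hXZ (i, b, ⟨D - 1, by omega⟩) (F.jA i)).2
            ⟨Or.inl ⟨hv, hzp _⟩, by simp only; omega⟩
          simp only at this
          rw [this, hsA, F.bA _ _ _ hv]
      have h3 := ps_succ A w i b ⟨D - 1, by omega⟩
      have h4 : D - 1 + 1 = D := by omega
      simp only [h4] at h3
      rw [← this, hzz, hw1, ← ps_all]
      exact h3.symm
    intro x hx
    rw [mem_gr] at hx
    have := hsX x.1
    have hcomb : s x.1 = x.2 := by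
      rw [← hx]
      funext b
      exact hsym x.1 b
    rw [hcomb] at this
    exact this
  · refine ⟨fun _ => 0, ?_⟩
    intro x hx
    exact absurd ⟨x.1⟩ hM

/-- the graph -/
noncomputable def gphE (A : Fin M → Bool × Fin κ → Fin D → ZMod 2) (e : Fin v ≃ TV F D u₀ ρ)
    (X : Finset (Fin M × Sy κ)) : SimpleGraph (Fin v) where
  Adj i j := evl X (labE A (e i) (e j)) = true
  symm := ⟨fun i j h => by rw [labE_comm]; exact h⟩
  loopless := ⟨fun i h => (labE_tag A X _ _ h).1 rfl⟩

theorem clique_gphE (hD : 0 < D) (hκ : 0 < κ) (A : Fin M → Bool × Fin κ → Fin D → ZMod 2)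
    (e : Fin v ≃ TV F D u₀ ρ) (X : Finset (Fin M × Sy κ)) {k : ℕ}
    (hk : k = Fintype.card (TB F D u₀)) (hk2 : 2 ≤ k) :
    (∃ S : Finset (Fin v), k ≤ S.card ∧ (gphE A e X).IsClique (S : Set (Fin v))) ↔
      ∃ w, gr A w ⊆ X := by
  classical
  constructor
  · rintro ⟨S, hS, hcl⟩
    have hinj : Set.InjOn (fun i => tag (e i)) (S : Set (Fin v)) := by
      intro i hi j hj hij
      by_contra hne
      exact (labE_tag A X _ _ (hcl hi hj hne)).1 hij
    have hnone : ∀ i ∈ S, tag (e i) ≠ none := by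
      intro i hi
      obtain ⟨j, hj, hne⟩ := Finset.exists_mem_ne (by omega : 1 < S.card) i
      exact (labE_tag A X _ _ (hcl hi hj hne.symm)).2
    have himg : S.image (fun i => tag (e i)) =
        (Finset.univ : Finset (TB F D u₀)).map Function.Embedding.some := by
      refine Finset.eq_of_subset_of_card_le ?_ ?_
      · intro o ho
        obtain ⟨i, hi, rfl⟩ := Finset.mem_image.1 ho
        obtain ⟨b, hb⟩ := Option.ne_none_iff_exists'.1 (hnone i hi)
        simp only [hb, Finset.mem_map, Finset.mem_univ, true_and]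
        exact ⟨b, rfl⟩
      · rw [Finset.card_map, Finset.card_univ, Finset.card_image_of_injOn hinj, ← hk]
        exact hS
    have hex : ∀ β : TB F D u₀, ∃ i ∈ S, tag (e i) = some β := by
      intro β
      have : some β ∈ S.image (fun i => tag (e i)) := by
        rw [himg, Finset.mem_map]
        exact ⟨β, Finset.mem_univ _, rfl⟩
      obtain ⟨i, hi, hti⟩ := Finset.mem_image.1 this
      exact ⟨i, hi, hti⟩
    choose i hiS hti using hex
    refine word_of_choice hD hκ A X (fun β => e (i β)) hti ?_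
    intro β β' hne
    have hne' : i β ≠ i β' := by
      intro h
      have h1 := hti β
      rw [h, hti β'] at h1
      exact hne (Option.some.inj h1).symm
    exact hcl (hiS β) (hiS β') hne'
  · rintro ⟨w, hw⟩
    have hinj : Function.Injective fun x : TB F D u₀ =>
        e.symm (pickE (ρ := ρ) A w x) := by
      intro x y h
      have h1 := e.symm.injective h
      have h2 := congrArg tag h1
      rw [tag_pickE, tag_pickE] at h2
      exact Option.some.inj h2
    refine ⟨Finset.univ.map ⟨_, hinj⟩, ?_, ?_⟩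
    · rw [Finset.card_map, Finset.card_univ, hk]
    · intro i hi j hj hne
      simp only [Finset.coe_map, Function.Embedding.coeFn_mk, Finset.coe_univ,
        Set.image_univ, Set.mem_range] at hi hj
      obtain ⟨x, rfl⟩ := hi
      obtain ⟨y, rfl⟩ := hj
      have hxy : x ≠ y := fun h => hne (by rw [h])
      simp only [gphE, Equiv.apply_symm_apply]
      exact pick_adj A w X hw x y hxy

end Pool.Agent.V8H38.EU
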