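import Pool.Agent.V8H38.EU.Subst
import Pool.Agent.V8H38.EV.Moment

/-!
# Every bipartite graph contains many pairs which are labelled by bits of their two vertices
-/

namespace Pool.Agent.V8H38.EU

open Finset

variable {v M κ : ℕ}

/-- the number of pairs with a given first vertex -/
def deg (G : Finset (Fin v × Fin v)) (x : Fin v) : ℕ := (G.filter fun e => e.1 = x).card

/-- thresholds -/
def thr (κ j : ℕ) : ℕ := if j = 0 then 1 else 2 * κ * 2 ^ j

/-- weights -/
def wei (κ j : ℕ) : ℕ := if j = 0 then 4 * κ else 2 * κ * 2 ^ j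

theorem level_sum (d J : ℕ) (hd : 1 ≤ d) (hJ : 1 ≤ J) :
    min d (2 * κ * 2 ^ J) ≤ ∑ j ∈ Finset.range J, if thr κ j ≤ d then wei κ j else 0 := by
  induction J, hJ using Nat.le_induction with
  | base =>
    rw [Finset.sum_range_one]
    unfold thr wei
    rw [if_pos rfl, if_pos hd, if_pos rfl]
    have : 2 * κ * 2 ^ 1 = 4 * κ := by ring
    omega
  | succ J hJ ih =>
    rw [Finset.sum_range_succ]
    have hJ0 : J ≠ 0 := by omega
    have h1 : thr κ J = 2 * κ * 2 ^ J := by unfold thr; rw [if_neg hJ0]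
    have h2 : wei κ J = 2 * κ * 2 ^ J := by unfold wei; rw [if_neg hJ0]
    have h3 : 2 * κ * 2 ^ (J + 1) = 2 * (2 * κ * 2 ^ J) := by ring
    rw [h1, h2, h3]
    by_cases h : 2 * κ * 2 ^ J ≤ d
    · rw [if_pos h]
      omega
    · rw [if_neg h]
      omega

theorem exists_level (hκ : 1 ≤ κ) (G : Finset (Fin v × Fin v))
    (hG : 2 * κ * (4 * κ * 4 ^ κ) ≤ G.card) :
    ∃ j ≤ 2 * κ, 2 ^ (2 * κ - j) ≤
      (Finset.univ.filter fun x : Fin v => thr κ j ≤ deg G x).card := by
  classical
  by_contra hcon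
  push Not at hcon
  have h4 : (4:ℕ) ^ κ = 2 ^ (2 * κ) := by rw [pow_mul]; norm_num
  have htop : ∀ x, deg G x < 2 * κ * 2 ^ (2 * κ) := by
    intro x
    have h1 := hcon (2 * κ) le_rfl
    rw [Nat.sub_self, pow_zero, Nat.lt_one_iff, Finset.card_eq_zero] at h1
    by_contra h2
    push Not at h2
    have : x ∈ Finset.univ.filter fun x : Fin v => thr κ (2 * κ) ≤ deg G x := by
      rw [Finset.mem_filter]
      refine ⟨Finset.mem_univ _, ?_⟩
      unfold thr
      rw [if_neg (by omega)]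
      exact h2
    rw [h1] at this
    exact absurd this (Finset.notMem_empty _)
  have hsum : G.card = ∑ x : Fin v, deg G x := by
    unfold deg
    exact Finset.card_eq_sum_card_fiberwise (fun e _ => Finset.mem_univ e.1)
  have hle : G.card ≤ ∑ j ∈ Finset.range (2 * κ),
      wei κ j * (Finset.univ.filter fun x : Fin v => thr κ j ≤ deg G x).card := by
    have e1 : ∀ j, wei κ j * (Finset.univ.filter fun x : Fin v => thr κ j ≤ deg G x).card =
        ∑ x : Fin v, if thr κ j ≤ deg G x then wei κ j else 0 := by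
      intro j
      rw [← Finset.sum_filter, Finset.sum_const, smul_eq_mul, mul_comm]
    rw [Finset.sum_congr rfl fun j _ => e1 j, Finset.sum_comm, hsum]
    refine Finset.sum_le_sum fun x _ => ?_
    rcases Nat.eq_zero_or_pos (deg G x) with h | h
    · rw [h]
      exact Nat.zero_le _
    · have := level_sum (κ := κ) (deg G x) (2 * κ) h (by omega)
      rw [min_eq_left (htop x).le] at this
      exact this
  have hlt : ∑ j ∈ Finset.range (2 * κ),
      wei κ j * (Finset.univ.filter fun x : Fin v => thr κ j ≤ deg G x).card <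
      ∑ j ∈ Finset.range (2 * κ), 4 * κ * 4 ^ κ := by
    refine Finset.sum_lt_sum_of_nonempty (Finset.nonempty_range_iff.2 (by omega)) fun j hj => ?_
    rw [Finset.mem_range] at hj
    have h1 := hcon j hj.le
    have hw : 0 < wei κ j := by
      unfold wei
      split_ifs <;> positivity
    refine (Nat.mul_lt_mul_of_pos_left h1 hw).trans_le ?_
    rw [h4]
    unfold wei
    split_ifs with hj0
    · rw [hj0]
      simp
    · have e2 : 2 ^ j * 2 ^ (2 * κ - j) = 2 ^ (2 * κ) := by
        rw [← pow_add]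
        congr 1
        omega
      calc 2 * κ * 2 ^ j * 2 ^ (2 * κ - j) = 2 * κ * (2 ^ j * 2 ^ (2 * κ - j)) := by ring
        _ = 2 * κ * 2 ^ (2 * κ) := by rw [e2]
        _ ≤ 4 * κ * 2 ^ (2 * κ) := by gcongr; omega
  rw [Finset.sum_const, Finset.card_range, smul_eq_mul] at hlt
  omega

theorem two_terms (m n : ℕ) : m ^ (n + 1) + (n + 1) * m ^ n ≤ (m + 1) ^ (n + 1) := by
  induction n with
  | zero => simp
  | succ n ih =>
    calc m ^ (n + 1 + 1) + (n + 1 + 1) * m ^ (n + 1)
        ≤ (m + 1) * (m ^ (n + 1) + (n + 1) * m ^ n) := by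
          have : (m + 1) * (m ^ (n + 1) + (n + 1) * m ^ n) =
            m ^ (n + 1 + 1) + (n + 1 + 1) * m ^ (n + 1) + (n + 1) * m ^ n := by ring
          omega
      _ ≤ (m + 1) * (m + 1) ^ (n + 1) := Nat.mul_le_mul_left _ ih
      _ = (m + 1) ^ (n + 1 + 1) := by ring

theorem two_mul_pow_lt (g : ℕ) (hg : 1 ≤ g) : 2 * (g - 1) ^ g < g ^ g := by
  obtain ⟨m, rfl⟩ : ∃ m, g = m + 1 := ⟨g - 1, by omega⟩
  have h1 := two_terms m m
  have h2 : (m + 1 - 1) = m := by omega
  rw [h2]
  have h3 : 0 < m ^ m := by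
    rcases Nat.eq_zero_or_pos m with h | h
    · rw [h]; norm_num
    · positivity
  have h4 : (m + 1) * m ^ m = m ^ (m + 1) + m ^ m := by ring
  omega

theorem miss_lt (hκ : 1 ≤ κ) (g n v : ℕ) (hg : 1 ≤ g) (hn : 2 * κ * g ≤ n) (hv : n ≤ v) :
    (g - 1) ^ n * g ^ (v - n) * 4 ^ κ < g ^ v := by
  obtain ⟨a, rfl⟩ : ∃ a, n = 2 * κ * g + a := ⟨n - 2 * κ * g, by omega⟩
  obtain ⟨b, rfl⟩ : ∃ b, v = 2 * κ * g + a + b := ⟨v - (2 * κ * g + a), by omega⟩
  have h1 : 2 * κ * g + a + b - (2 * κ * g + a) = b := by omega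
  rw [h1]
  have h2 : (g - 1) ^ a ≤ g ^ a := Nat.pow_le_pow_left (by omega) _
  have h3 : (g - 1) ^ (2 * κ * g) * 4 ^ κ < g ^ (2 * κ * g) := by
    have e1 : (g - 1) ^ (2 * κ * g) * 4 ^ κ = (2 * (g - 1) ^ g) ^ (2 * κ) := by
      rw [mul_pow, ← pow_mul, mul_comm g (2 * κ), pow_mul 2 2 κ]
      norm_num
      ring
    have e2 : g ^ (2 * κ * g) = (g ^ g) ^ (2 * κ) := by
      rw [← pow_mul, mul_comm g (2 * κ)]
    rw [e1, e2]
    exact Nat.pow_lt_pow_left (two_mul_pow_lt g hg) (by omega)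
  have hg0 : 0 < g ^ b := by positivity
  have hg1 : 0 < g ^ a := by positivity
  calc (g - 1) ^ (2 * κ * g + a) * g ^ b * 4 ^ κ
      = ((g - 1) ^ (2 * κ * g) * 4 ^ κ) * ((g - 1) ^ a * g ^ b) := by rw [pow_add]; ring
    _ ≤ ((g - 1) ^ (2 * κ * g) * 4 ^ κ) * (g ^ a * g ^ b) := by gcongr
    _ < g ^ (2 * κ * g) * (g ^ a * g ^ b) := Nat.mul_lt_mul_of_pos_right h3 (by positivity)
    _ = g ^ (2 * κ * g + a + b) := by rw [pow_add, pow_add]; ring

/-- the number of functions which avoid a value on a set -/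
theorem card_avoid {Γ : Type} [Fintype Γ] [DecidableEq Γ] (N : Finset (Fin v)) (γ : Γ) :
    (Finset.univ.filter fun h : Fin v → Γ => ∀ b ∈ N, h b ≠ γ).card =
      (Fintype.card Γ - 1) ^ N.card * Fintype.card Γ ^ (v - N.card) := by
  classical
  have h1 : (Finset.univ.filter fun h : Fin v → Γ => ∀ b ∈ N, h b ≠ γ) =
      Fintype.piFinset fun b : Fin v => if b ∈ N then (Finset.univ : Finset Γ).erase γ
        else Finset.univ := by
    ext h
    rw [Finset.mem_filter, Fintype.mem_piFinset]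
    simp only [Finset.mem_univ, true_and]
    constructor
    · intro hh b
      split_ifs with hb
      · exact Finset.mem_erase.2 ⟨hh b hb, Finset.mem_univ _⟩
      · exact Finset.mem_univ _
    · intro hh b hb
      have := hh b
      rw [if_pos hb] at this
      exact (Finset.mem_erase.1 this).1
  rw [h1, Fintype.card_piFinset]
  have h2 : ∀ b : Fin v, (if b ∈ N then (Finset.univ : Finset Γ).erase γ
        else Finset.univ).card = if b ∈ N then Fintype.card Γ - 1 else Fintype.card Γ := by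
    intro b
    split_ifs
    · rw [Finset.card_erase_of_mem (Finset.mem_univ _), Finset.card_univ]
    · rw [Finset.card_univ]
  rw [Finset.prod_congr rfl fun b _ => h2 b, Finset.prod_ite, Finset.prod_const,
    Finset.prod_const]
  have h3 : (Finset.univ.filter fun b : Fin v => b ∈ N) = N := by ext; simp
  have h4 : (Finset.univ.filter fun b : Fin v => b ∉ N) = Nᶜ := by ext; simp
  rw [h3, h4, Finset.card_compl, Fintype.card_fin]

theorem exists_grouping (hκ : 1 ≤ κ) {Γ : Type} [Fintype Γ] [DecidableEq Γ] [Nonempty Γ] (j : ℕ)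
    (hΓ : Fintype.card Γ = 2 ^ j) (G : Finset (Fin v × Fin v)) (S : Finset (Fin v))
    (hS : S.card * Fintype.card Γ ≤ 4 ^ κ) (hdeg : ∀ x ∈ S, thr κ j ≤ deg G x) :
    ∃ h : Fin v → Γ, ∀ x ∈ S, ∀ γ, ∃ b, (x, b) ∈ G ∧ h b = γ := by
  classical
  by_cases hj : j = 0
  · subst hj
    have hsub : Subsingleton Γ := by
      rw [← Fintype.card_le_one_iff_subsingleton, hΓ, pow_zero]
    refine ⟨fun _ => Classical.arbitrary Γ, fun x hx γ => ?_⟩
    have h1 := hdeg x hx
    unfold thr deg at h1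
    rw [if_pos rfl] at h1
    obtain ⟨e, he⟩ := Finset.card_pos.1 h1
    rw [Finset.mem_filter] at he
    refine ⟨e.2, ?_, Subsingleton.elim _ _⟩
    rw [← he.2]
    exact he.1
  · set g := Fintype.card Γ with hg
    have hg1 : 1 ≤ g := by rw [hΓ]; exact Nat.one_le_two_pow
    let N : Fin v → Finset (Fin v) := fun x => (G.filter fun e => e.1 = x).image Prod.snd
    have hN : ∀ x, (N x).card = deg G x := by
      intro x
      refine Finset.card_image_of_injOn ?_
      intro e he f hf hef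
      simp only [Finset.coe_filter, Set.mem_ofPred_eq] at he hf
      exact Prod.ext (he.2.trans hf.2.symm) hef
    have hNv : ∀ x, (N x).card ≤ v := by
      intro x
      have := Finset.card_le_univ (N x)
      rwa [Fintype.card_fin] at this
    have hmem : ∀ x b, b ∈ N x → (x, b) ∈ G := by
      intro x b hb
      obtain ⟨e, he, rfl⟩ := Finset.mem_image.1 hb
      rw [Finset.mem_filter] at he
      rw [← he.2]
      exact he.1
    by_contra hcon
    push Not at hcon
    have hcov : (Finset.univ : Finset (Fin v → Γ)) ⊆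
        (S ×ˢ (Finset.univ : Finset Γ)).biUnion fun p =>
          Finset.univ.filter fun h : Fin v → Γ => ∀ b ∈ N p.1, h b ≠ p.2 := by
      intro h _
      obtain ⟨x, hx, γ, hγ⟩ := hcon h
      rw [Finset.mem_biUnion]
      refine ⟨(x, γ), Finset.mem_product.2 ⟨hx, Finset.mem_univ _⟩, ?_⟩
      rw [Finset.mem_filter]
      exact ⟨Finset.mem_univ _, fun b hb => hγ b (hmem x b hb)⟩
    have h1 : g ^ v ≤ ∑ p ∈ S ×ˢ (Finset.univ : Finset Γ),
        (Finset.univ.filter fun h : Fin v → Γ => ∀ b ∈ N p.1, h b ≠ p.2).card := by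
      refine le_trans (le_of_eq ?_) ((Finset.card_le_card hcov).trans Finset.card_biUnion_le)
      rw [Finset.card_univ, Fintype.card_fun, Fintype.card_fin]
    have hgv : 0 < g ^ v := by positivity
    have hne : (S ×ˢ (Finset.univ : Finset Γ)).Nonempty := by
      by_contra h
      rw [Finset.not_nonempty_iff_eq_empty] at h
      rw [h, Finset.sum_empty] at h1
      omega
    have h2 : (∑ p ∈ S ×ˢ (Finset.univ : Finset Γ),
        (Finset.univ.filter fun h : Fin v → Γ => ∀ b ∈ N p.1, h b ≠ p.2).card) * 4 ^ κ <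
        ∑ p ∈ S ×ˢ (Finset.univ : Finset Γ), g ^ v := by
      rw [Finset.sum_mul]
      refine Finset.sum_lt_sum_of_nonempty hne fun p hp => ?_
      rw [card_avoid]
      refine miss_lt hκ g (N p.1).card v hg1 ?_ (hNv _)
      have h3 := hdeg p.1 (Finset.mem_product.1 hp).1
      unfold thr at h3
      rw [if_neg hj] at h3
      rw [hN, hΓ]
      exact h3
    rw [Finset.sum_const, Finset.card_product, Finset.card_univ, smul_eq_mul, ← hg] at h2
    have h3 : g ^ v * 4 ^ κ ≤ (∑ p ∈ S ×ˢ (Finset.univ : Finset Γ),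
        (Finset.univ.filter fun h : Fin v → Γ => ∀ b ∈ N p.1, h b ≠ p.2).card) * 4 ^ κ :=
      Nat.mul_le_mul_right _ h1
    have h4 : S.card * g * g ^ v ≤ 4 ^ κ * g ^ v := Nat.mul_le_mul_right _ hS
    have h5 : 4 ^ κ * g ^ v = g ^ v * 4 ^ κ := mul_comm _ _
    omega

/-- **Many pairs which are labelled by bits of their two vertices.** -/
theorem extract (hκ : 1 ≤ κ) (G : Finset (Fin v × Fin v)) (hG : 8 * κ ^ 2 * 4 ^ κ ≤ G.card) :
    ∃ (vis : Bool × Fin κ → Bool) (bit : Fin v → Bool × Fin κ → ZMod 2) (a b : Sy κ → Fin v),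
      (∀ c, (a c, b c) ∈ G) ∧ (∀ c s, vis s = true → bit (a c) s = c s) ∧
      (∀ c s, vis s = false → bit (b c) s = c s) := by
  classical
  obtain ⟨j, hj, hA⟩ := exists_level hκ G (by
    refine le_trans (le_of_eq ?_) hG
    ring)
  have hcS : Fintype.card (Bool × Fin κ) = 2 * κ := by
    rw [Fintype.card_prod, Fintype.card_bool, Fintype.card_fin]
  obtain ⟨T, _, hT⟩ := Finset.exists_subset_card_eq (s := (Finset.univ : Finset (Bool × Fin κ)))
    (n := j) (by rw [Finset.card_univ, hcS]; exact hj)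
  obtain ⟨S, hS1, hS2⟩ := Finset.exists_subset_card_eq hA
  have hΓ : Fintype.card ({s // s ∈ T} → ZMod 2) = 2 ^ j := by
    rw [Fintype.card_fun, ZMod.card, Fintype.card_coe, hT]
  have hΔ : Fintype.card ({s // s ∈ Tᶜ} → ZMod 2) = Fintype.card {x // x ∈ S} := by
    rw [Fintype.card_fun, ZMod.card, Fintype.card_coe, Fintype.card_coe, Finset.card_compl,
      hcS, hT, hS2]
  let E : ({s // s ∈ Tᶜ} → ZMod 2) ≃ {x // x ∈ S} := Fintype.equivOfCardEq hΔ
  obtain ⟨h, hh⟩ := exists_grouping hκ (Γ := {s // s ∈ T} → ZMod 2) j hΓ G S (by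
    rw [hS2, hΓ, ← pow_add, Nat.sub_add_cancel hj, pow_mul]
    norm_num) (fun x hx => (Finset.mem_filter.1 (hS1 hx)).2)
  choose! bb hbb1 hbb2 using hh
  refine ⟨fun s => decide (s ∉ T), fun z s => if hs : s ∈ T then h z ⟨s, hs⟩ else
      if hz : z ∈ S then E.symm ⟨z, hz⟩ ⟨s, Finset.mem_compl.2 hs⟩ else 0,
    fun c => (E fun s => c s : {x // x ∈ S}), fun c => bb (E fun s => c s : {x // x ∈ S})
      (fun s => c s), ?_, ?_, ?_⟩
  · intro c
    exact hbb1 _ (E fun s => c s).2 _
  · intro c s hs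
    simp only [decide_eq_true_eq] at hs
    simp only
    rw [dif_neg hs, dif_pos (E fun s => c s).2]
    simp
  · intro c s hs
    simp only [decide_eq_false_iff_not, not_not] at hs
    simp only
    rw [dif_pos hs, hbb2 _ (E fun s => c s).2 _]

end Pool.Agent.V8H38.EU
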