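import Pool.Agent.V8H38.EU.Main
import Pool.Agent.V8H38.EV.Final

/-!
# The law for all sets of pairs, for the half-clique language and the clique function
-/

namespace Pool.Agent.V8H38.EU

open Finset
open Pool.Agent.V8H38.NA
open Pool.Agent.V8H38.EV (ReadsClique Pairs reads_clique reads_halfClique)

/-- the law with a parameter `lam` -/
def PairLaw (n lam μ : ℕ) (P : Finset (Fin n)) (f : (Fin n → Bool) → Prop) : Prop :=
  ∃ (D : (Fin n → Bool) → ℝ) (z : Fin n → Bool) (Q : Equiv.Perm (Fin n) → ℝ),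
    (∀ x, 0 ≤ D x) ∧ ∑ x, D x = 1 ∧ (∀ x, D x ≠ 0 → ∀ a, a ∉ P → x a = z a) ∧
    (∀ π, 0 ≤ Q π) ∧ ∑ π, Q π = 1 ∧
    ∀ C : Net n, C.Monotone → C.size ≤ 2 ^ μ →
      C.agree D f ≤ 1 / 2 +
        2 ^ 34 * (1 + ∑ π, Q π * (C.activity P z π : ℝ)) * (lam ^ 5 * μ ^ 4) / P.card

theorem pairLaw_of (n v k lam μ : ℕ) (P : Finset (Fin n)) (hP : Pairs v P) (hne : P.Nonempty)
    (hvn : v * v ≤ n) (f : (Fin n → Bool) → Prop) (hf : ReadsClique v k f)
    (h1 : P.card < 2 ^ lam) (hlm : lam ≤ μ) (h2 : 270 * (lam ^ 3 * μ ^ 2) ≤ k)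
    (h3 : 2 * k ≤ v) : PairLaw n lam μ P f := by
  classical
  have hN1 : 1 ≤ P.card := Finset.card_pos.2 hne
  set N := P.card with hN
  have hN0 : (0:ℝ) < N := by exact_mod_cast hN1
  have hlam1 : 1 ≤ lam := by
    by_contra h0
    have : lam = 0 := by omega
    subst this
    simp only [pow_zero] at h1
    omega
  have hμ1 : 1 ≤ μ := hlam1.trans hlm
  by_cases hsmall : N ≤ 2 ^ 35 * (lam ^ 5 * μ ^ 4)
  · -- the bound is at least one
    have hD0 : ∀ x : Fin n → Bool, (0:ℝ) ≤ if x = (fun _ => false) then 1 else 0 := by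
      intro x
      split_ifs <;> norm_num
    have hD1 : ∑ x : Fin n → Bool, (if x = (fun _ => false) then (1:ℝ) else 0) = 1 := by simp
    refine ⟨fun x => if x = (fun _ => false) then 1 else 0, fun _ => false,
      fun π => if π = 1 then 1 else 0, hD0, hD1, ?_, fun π => by
        dsimp only
        split_ifs <;> norm_num, by simp, ?_⟩
    · intro x hx a _
      by_cases h : x = fun _ => false
      · rw [h]
      · simp only [if_neg h] at hx
        exact absurd rfl hx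
    · intro C _ _
      have h1 := agree_le_one hD0 hD1 C f
      have h2 : (N : ℝ) ≤ 2 ^ 35 * (lam ^ 5 * μ ^ 4) := by exact_mod_cast hsmall
      have h7 : (0:ℝ) ≤ ∑ π : Equiv.Perm (Fin n), (if π = 1 then (1:ℝ) else 0) *
          (C.activity P (fun _ => false) π : ℝ) := Finset.sum_nonneg fun π _ => by
        split_ifs <;> positivity
      have h4 : (1:ℝ) / 2 ≤ 2 ^ 34 * (1 + ∑ π : Equiv.Perm (Fin n),
          (if π = 1 then (1:ℝ) else 0) * (C.activity P (fun _ => false) π : ℝ)) *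
            (lam ^ 5 * μ ^ 4) / (N : ℝ) := by
        rw [div_le_div_iff₀ (by norm_num) hN0]
        have h5 : (0:ℝ) ≤ lam ^ 5 * μ ^ 4 := by positivity
        nlinarith
      linarith
  push Not at hsmall
  have hμ10 : 0 < 2 ^ 32 * (lam ^ 5 * μ ^ 4) := by positivity
  set r := N / (2 ^ 32 * (lam ^ 5 * μ ^ 4)) with hr
  have hrpos : 0 < r := Nat.div_pos (by omega) hμ10
  have h4 : 2 ^ 32 * r * (lam ^ 5 * μ ^ 4) ≤ N := by
    calc 2 ^ 32 * r * (lam ^ 5 * μ ^ 4) = r * (2 ^ 32 * (lam ^ 5 * μ ^ 4)) := by ring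
      _ ≤ N := Nat.div_mul_le_self _ _
  have hnr : N ≤ 2 ^ 33 * (lam ^ 5 * μ ^ 4) * r := by
    have h6 : N < 2 ^ 32 * (lam ^ 5 * μ ^ 4) * (r + 1) := Nat.lt_mul_div_succ _ hμ10
    have h7 : 2 ^ 32 * (lam ^ 5 * μ ^ 4) * (r + 1) ≤ 2 ^ 32 * (lam ^ 5 * μ ^ 4) * (2 * r) := by
      gcongr; omega
    have h8 : 2 ^ 32 * (lam ^ 5 * μ ^ 4) * (2 * r) = 2 ^ 33 * (lam ^ 5 * μ ^ 4) * r := by ring
    omega
  obtain ⟨D, z, Q, d1, d2, d3, p1, p2, h⟩ :=
    every_avg n v k lam μ r N P hP hvn hrpos le_rfl h1 hlm h2 h3 h4 hN1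
  refine ⟨D, z, Q, d1, d2, d3, p1, p2, fun C hC hs => ?_⟩
  refine (h f hf C hC hs).trans ?_
  set A : ℝ := ∑ π, Q π * (C.activity P z π : ℝ) with hA
  have hA0 : 0 ≤ A := Finset.sum_nonneg fun π _ => mul_nonneg (p1 π) (Nat.cast_nonneg _)
  have hr0 : (0:ℝ) < r := by exact_mod_cast hrpos
  have h6 : (N : ℝ) ≤ 2 ^ 33 * (lam ^ 5 * μ ^ 4) * r := by exact_mod_cast hnr
  have h7 : (2 * (1 + A) / r : ℝ) ≤ 2 ^ 34 * (1 + A) * (lam ^ 5 * μ ^ 4) / (N : ℝ) := by
    rw [div_le_div_iff₀ hr0 hN0]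
    calc (2 * (1 + A) : ℝ) * (N : ℝ) ≤
        2 * (1 + A) * (2 ^ 33 * (lam ^ 5 * μ ^ 4) * r) := by gcongr
      _ = 2 ^ 34 * (1 + A) * (lam ^ 5 * μ ^ 4) * r := by ring
  linarith

/-- **The law** for the predicate `f` of `n` bits and the set `P` of variables. There are a
distribution `D` of inputs which have the fixed values `z` outside of `P`, and a distribution `Q` of
orders of the variables, such that every circuit of size at most `2 ^ μ` is right with probability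
at most `1 / 2 + 2 ^ 34 * (1 + A) * l ^ 5 * μ ^ 4 / |P|`, where `A` is the expected activity of
the circuit on `P` for a random order, and `l` is the number of binary digits of `|P|`. -/
def ActivityBound (n μ : ℕ) (P : Finset (Fin n)) (f : (Fin n → Bool) → Prop) : Prop :=
  ∃ (D : (Fin n → Bool) → ℝ) (z : Fin n → Bool) (Q : Equiv.Perm (Fin n) → ℝ),
    (∀ x, 0 ≤ D x) ∧ ∑ x, D x = 1 ∧ (∀ x, D x ≠ 0 → ∀ a, a ∉ P → x a = z a) ∧
    (∀ π, 0 ≤ Q π) ∧ ∑ π, Q π = 1 ∧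
    ∀ C : Net n, C.Monotone → C.size ≤ 2 ^ μ →
      C.agree D f ≤ 1 / 2 +
        2 ^ 34 * (1 + ∑ π, Q π * (C.activity P z π : ℝ)) *
          ((Nat.log 2 P.card + 1) ^ 5 * μ ^ 4) / P.card

theorem law_of (n v k μ : ℕ) (P : Finset (Fin n)) (hP : Pairs v P) (hne : P.Nonempty)
    (hvn : v * v ≤ n) (f : (Fin n → Bool) → Prop) (hf : ReadsClique v k f)
    (hlm : Nat.log 2 P.card < μ) (h2 : 270 * ((Nat.log 2 P.card + 1) ^ 3 * μ ^ 2) ≤ k)
    (h3 : 2 * k ≤ v) : ActivityBound n μ P f := by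
  obtain ⟨D, z, Q, d1, d2, d3, p1, p2, h⟩ := pairLaw_of n v k (Nat.log 2 P.card + 1) μ P hP hne
    hvn f hf (Nat.lt_pow_succ_log_self (by norm_num) _) hlm h2 h3
  refine ⟨D, z, Q, d1, d2, d3, p1, p2, fun C hC hs => ?_⟩
  have := h C hC hs
  push_cast at this
  exact this

/-- **The law for the clique function and all sets of pairs.** -/
theorem clique_law (v k μ : ℕ) (P : Finset (Fin (v * v))) (hP : Pairs v P)
    (hne : P.Nonempty) (hlm : Nat.log 2 P.card < μ)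
    (h2 : 270 * ((Nat.log 2 P.card + 1) ^ 3 * μ ^ 2) ≤ k) (h3 : 2 * k ≤ v) :
    ActivityBound (v * v) μ P (Clique v k) :=
  law_of (v * v) v k μ P hP hne le_rfl _ (reads_clique v k) hlm h2 h3

/-- **The law for the half-clique language and all sets of pairs.** -/
theorem halfClique_law (n μ : ℕ) (P : Finset (Fin n)) (hP : Pairs (Nat.sqrt n) P)
    (hne : P.Nonempty) (hlm : Nat.log 2 P.card < μ)
    (h2 : 600 * ((Nat.log 2 P.card + 1) ^ 3 * μ ^ 2) ≤ Nat.sqrt n) :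
    ActivityBound n μ P (fun x => List.ofFn x ∈ HalfClique) := by
  refine law_of n (Nat.sqrt n) (Nat.sqrt n / 2) μ P hP hne (Nat.sqrt_le n) _
    (reads_halfClique n) hlm ?_ (Nat.mul_div_le _ 2)
  rw [Nat.le_div_iff_mul_le (by norm_num)]
  omega

end Pool.Agent.V8H38.EU
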