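import Pool.Agent.V8H38.NL.CliqueMain

/-!
# Frames: blocks of pairs of vertices at arbitrary positions, and a graph whose large cliques are
the words of a linear code contained in a set. Every coordinate of a symbol is seen at the first or
at the second vertex of the pair.
-/

namespace Pool.Agent.V8H38.EU

open Finset
open Pool.Agent.V8H38.NL (Chk okXX startOK stepOK evl sym gr mem_gr ps ps_zero ps_succ ps_all
  lab lab_comm)

/-- symbols -/
abbrev Sy (κ : ℕ) : Type := Bool × Fin κ → ZMod 2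

/-- `M` blocks of `4 ^ κ` pairs of vertices. -/
structure Frame (v M κ : ℕ) where
  /-- the type of parts -/
  J : Type
  /-- finitely many parts -/
  fJ : Fintype J
  /-- decidable equality of parts -/
  dJ : DecidableEq J
  /-- the touched vertices -/
  Z : Finset (Fin v)
  /-- the part of a vertex -/
  part : Fin v → J
  /-- the first vertex of a pair -/
  a : Fin M → Sy κ → Fin v
  /-- the second vertex of a pair -/
  b : Fin M → Sy κ → Fin v
  /-- the part of the first vertices of the pairs in a block -/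
  jA : Fin M → J
  /-- the part of the second vertices of the pairs in a block -/
  jB : Fin M → J
  aZ : ∀ i c, a i c ∈ Z
  bZ : ∀ i c, b i c ∈ Z
  pa : ∀ i c, part (a i c) = jA i
  pb : ∀ i c, part (b i c) = jB i
  hAB : ∀ i i', jA i ≠ jB i'
  hB : Function.Injective jB
  cov : ∀ j, (∃ i, jA i = j) ∨ (∃ i, jB i = j)
  cons : ∀ i i', i ≠ i' → jA i = jA i' → ∀ c c', a i c = a i' c'
  /-- is the coordinate seen at the first vertex of a pair? -/
  vis : Fin M → Bool × Fin κ → Bool
  /-- the coordinate seen at a vertex -/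
  bit : Fin M → Fin v → Bool × Fin κ → ZMod 2
  bA : ∀ i c s, vis i s = true → bit i (a i c) s = c s
  bB : ∀ i c s, vis i s = false → bit i (b i c) s = c s

attribute [instance] Frame.fJ Frame.dJ

variable {v M κ D u₀ ρ : ℕ}

namespace Frame

variable (F : Frame v M κ)

theorem inj (i : Fin M) (c c' : Sy κ) (h1 : F.a i c = F.a i c') (h2 : F.b i c = F.b i c') :
    c = c' := by
  funext s
  cases h : F.vis i s
  · rw [← F.bB i c s h, ← F.bB i c' s h, h2]
  · rw [← F.bA i c s h, ← F.bA i c' s h, h1]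

theorem a_ne_b (i i' : Fin M) (c c' : Sy κ) : F.a i c ≠ F.b i' c' := by
  intro h
  have := congrArg F.part h
  rw [F.pa, F.pb] at this
  exact F.hAB i i' this

/-- the pair of a label is determined -/
theorem edge_unique {i i' : Fin M} {c c' : Sy κ} (h1 : F.a i c = F.a i' c')
    (h2 : F.b i c = F.b i' c') : (i, c) = (i', c') := by
  have h3 : i = i' := by
    apply F.hB
    rw [← F.pb i c, ← F.pb i' c', h2]
  subst h3
  rw [F.inj i c c' h1 h2]

/-- the pair `z, z'` is the pair with label `x` -/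
def IsEdge (z z' : Fin v) (x : Fin M × Sy κ) : Prop :=
  (z = F.a x.1 x.2 ∧ z' = F.b x.1 x.2) ∨ (z = F.b x.1 x.2 ∧ z' = F.a x.1 x.2)

theorem isEdge_comm {z z' : Fin v} {x : Fin M × Sy κ} : F.IsEdge z z' x ↔ F.IsEdge z' z x := by
  unfold IsEdge
  constructor
  · rintro (h | h)
    · exact Or.inr ⟨h.2, h.1⟩
    · exact Or.inl ⟨h.2, h.1⟩
  · rintro (h | h)
    · exact Or.inr ⟨h.2, h.1⟩
    · exact Or.inl ⟨h.2, h.1⟩

theorem isEdge_unique {z z' : Fin v} {x y : Fin M × Sy κ} (hx : F.IsEdge z z' x)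
    (hy : F.IsEdge z z' y) : x = y := by
  rcases hx with ⟨h1, h2⟩ | ⟨h1, h2⟩ <;> rcases hy with ⟨h3, h4⟩ | ⟨h3, h4⟩
  · exact F.edge_unique (h1.symm.trans h3) (h2.symm.trans h4)
  · exact absurd (h1.symm.trans h3) (F.a_ne_b _ _ _ _)
  · exact absurd (h3.symm.trans h1) (F.a_ne_b _ _ _ _)
  · exact F.edge_unique (h2.symm.trans h4) (h1.symm.trans h3)

/-- the parts of `z, z'` are the two parts of some block -/
def SameBlock (z z' : Fin v) : Prop :=
  ∃ i, (F.part z = F.jA i ∧ F.part z' = F.jB i) ∨ (F.part z = F.jB i ∧ F.part z' = F.jA i)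

theorem sameBlock_comm {z z' : Fin v} : F.SameBlock z z' ↔ F.SameBlock z' z := by
  unfold SameBlock
  constructor <;> rintro ⟨i, h | h⟩
  · exact ⟨i, Or.inr ⟨h.2, h.1⟩⟩
  · exact ⟨i, Or.inl ⟨h.2, h.1⟩⟩
  · exact ⟨i, Or.inr ⟨h.2, h.1⟩⟩
  · exact ⟨i, Or.inl ⟨h.2, h.1⟩⟩

open Classical in
/-- the label of a pair of touched vertices -/
noncomputable def labR (z z' : Fin v) : Bool ⊕ (Fin M × Sy κ) :=
  if h : ∃ x, F.IsEdge z z' x then Sum.inr h.choose
  else Sum.inl (decide (F.part z ≠ F.part z' ∧ ¬ F.SameBlock z z'))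

theorem labR_edge {z z' : Fin v} {x : Fin M × Sy κ} (h : F.IsEdge z z' x) :
    F.labR z z' = Sum.inr x := by
  unfold labR
  have h2 : ∃ x, F.IsEdge z z' x := ⟨x, h⟩
  rw [dif_pos h2]
  rw [F.isEdge_unique h2.choose_spec h]

theorem labR_comm (z z' : Fin v) : F.labR z z' = F.labR z' z := by
  by_cases h : ∃ x, F.IsEdge z z' x
  · obtain ⟨x, hx⟩ := h
    rw [F.labR_edge hx, F.labR_edge (F.isEdge_comm.1 hx)]
  · have h' : ¬ ∃ x, F.IsEdge z' z x := by
      rintro ⟨x, hx⟩
      exact h ⟨x, F.isEdge_comm.1 hx⟩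
    unfold labR
    rw [dif_neg h, dif_neg h']
    congr 2
    apply propext
    rw [F.sameBlock_comm]
    exact ⟨fun h => ⟨h.1.symm, h.2⟩, fun h => ⟨h.1.symm, h.2⟩⟩

/-- the coordinate `s` of the symbol of block `i` is seen at the vertices of the part `j` -/
def Sees (i : Fin M) (s : Bool × Fin κ) (j : F.J) : Prop :=
  (F.vis i s = true ∧ j = F.jA i) ∨ (F.vis i s = false ∧ j = F.jB i)

end Frame

/-- compatibility of a check vertex and a touched vertex -/
def okXZ (F : Frame v M κ) (A : Fin M → Bool × Fin κ → Fin D → ZMod 2)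
    (x : Chk M κ D × (ZMod 2 × ZMod 2)) (z : Fin v) : Prop :=
  startOK x ∧ ((F.Sees x.1.1 x.1.2.1 (F.part z) ∧ (x.1.2.2 : ℕ) + 1 = D) →
    x.2.1 + A x.1.1 x.1.2.1 x.1.2.2 * x.2.2 = F.bit x.1.1 z x.1.2.1)

/-- the vertices: check vertices, touched vertices, universal and isolated vertices -/
inductive TV (F : Frame v M κ) (D u₀ ρ : ℕ) : Type
  | chk (x : Chk M κ D × (ZMod 2 × ZMod 2))
  | re (z : {z // z ∈ F.Z})
  | un (i : Fin u₀)
  | is (i : Fin ρ)

/-- the blocks -/
inductive TB (F : Frame v M κ) (D u₀ : ℕ) : Type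
  | chk (x : Chk M κ D)
  | re (j : F.J)
  | un (i : Fin u₀)

variable {F : Frame v M κ}

/-- sums -/
def tvEquiv (F : Frame v M κ) (D u₀ ρ : ℕ) : TV F D u₀ ρ ≃
    (Chk M κ D × (ZMod 2 × ZMod 2)) ⊕ ({z // z ∈ F.Z} ⊕ (Fin u₀ ⊕ Fin ρ)) where
  toFun
    | TV.chk x => Sum.inl x
    | TV.re x => Sum.inr (Sum.inl x)
    | TV.un x => Sum.inr (Sum.inr (Sum.inl x))
    | TV.is x => Sum.inr (Sum.inr (Sum.inr x))
  invFun
    | Sum.inl x => TV.chk x
    | Sum.inr (Sum.inl x) => TV.re x
    | Sum.inr (Sum.inr (Sum.inl x)) => TV.un x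
    | Sum.inr (Sum.inr (Sum.inr x)) => TV.is x
  left_inv := by rintro (x | x | x | x) <;> rfl
  right_inv := by rintro (x | (x | (x | x))) <;> rfl

/-- sums -/
def tbEquiv (F : Frame v M κ) (D u₀ : ℕ) : TB F D u₀ ≃
    Chk M κ D ⊕ (F.J ⊕ Fin u₀) where
  toFun
    | TB.chk x => Sum.inl x
    | TB.re x => Sum.inr (Sum.inl x)
    | TB.un x => Sum.inr (Sum.inr x)
  invFun
    | Sum.inl x => TB.chk x
    | Sum.inr (Sum.inl x) => TB.re x
    | Sum.inr (Sum.inr x) => TB.un x
  left_inv := by rintro (x | x | x) <;> rfl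
  right_inv := by rintro (x | (x | x)) <;> rfl

noncomputable instance : Fintype (TV F D u₀ ρ) := Fintype.ofEquiv _ (tvEquiv F D u₀ ρ).symm

noncomputable instance : Fintype (TB F D u₀) := Fintype.ofEquiv _ (tbEquiv F D u₀).symm

/-- the block of a vertex -/
def tag : TV F D u₀ ρ → Option (TB F D u₀)
  | TV.chk x => some (TB.chk x.1)
  | TV.re z => some (TB.re (F.part z))
  | TV.un i => some (TB.un i)
  | TV.is _ => none

open Classical in
/-- the label of a pair of vertices -/
noncomputable def labE (A : Fin M → Bool × Fin κ → Fin D → ZMod 2) :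
    TV F D u₀ ρ → TV F D u₀ ρ → Bool ⊕ (Fin M × Sy κ)
  | TV.is _, _ => Sum.inl false
  | _, TV.is _ => Sum.inl false
  | TV.un i, TV.un j => Sum.inl (decide (i ≠ j))
  | TV.un _, _ => Sum.inl true
  | _, TV.un _ => Sum.inl true
  | TV.chk x, TV.chk x' => Sum.inl (decide (okXX A x x'))
  | TV.chk x, TV.re z => Sum.inl (decide (okXZ F A x z))
  | TV.re z, TV.chk x => Sum.inl (decide (okXZ F A x z))
  | TV.re z, TV.re z' => F.labR z z'

theorem labE_comm (A : Fin M → Bool × Fin κ → Fin D → ZMod 2) (x y : TV F D u₀ ρ) :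
    labE A x y = labE A y x := by
  rcases x with x | x | x | x <;> rcases y with y | y | y | y <;>
    simp only [labE]
  · have := lab_comm A (Sum.inl x) (Sum.inl y)
    simpa only [lab] using this
  · exact F.labR_comm _ _
  · congr 2
    exact propext ⟨fun h h' => h h'.symm, fun h h' => h h'.symm⟩

theorem labE_tag (A : Fin M → Bool × Fin κ → Fin D → ZMod 2)
    (X : Finset (Fin M × Sy κ)) (x y : TV F D u₀ ρ)
    (h : evl X (labE A x y) = true) : tag x ≠ tag y ∧ tag x ≠ none := by
  rcases x with x | x | x | x <;> rcases y with y | y | y | y <;>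
    simp only [labE] at h <;> simp only [tag] <;>
    first
    | (constructor <;> simp <;> done)
    | skip
  · -- chk, chk
    simp only [evl, decide_eq_true_eq] at h
    exact ⟨by simpa using h.1, by simp⟩
  · -- re, re
    refine ⟨?_, by simp⟩
    intro h1
    simp only [Option.some.injEq, TB.re.injEq] at h1
    by_cases he : ∃ e, F.IsEdge x y e
    · obtain ⟨e, h2 | h2⟩ := he
      · rw [h2.1, h2.2, F.pa, F.pb] at h1
        exact F.hAB _ _ h1
      · rw [h2.1, h2.2, F.pa, F.pb] at h1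
        exact F.hAB _ _ h1.symm
    · unfold Frame.labR at h
      rw [dif_neg he] at h
      simp only [evl, decide_eq_true_eq] at h
      exact h.1 h1
  · -- un, un
    simp only [evl, decide_eq_true_eq] at h
    exact ⟨by simpa using h, by simp⟩
  all_goals exact absurd h (by simp [evl])

end Pool.Agent.V8H38.EU
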