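import Pool.Agent.V8H38.EU.Pick
import Pool.Agent.V8H38.EV.Main

/-!
# The law for arbitrary sets of pairs of vertices, with the number of pairs
-/

namespace Pool.Agent.V8H38.EU

open Finset
open Pool.Agent.V8H38.NA
open Pool.Agent.V8H38.NL (small card_small_le exists_code gr card_gr inp)
open Pool.Agent.V8H38.EV (ReadsClique Pairs exists_pairs)

/-- **The law for arbitrary sets of pairs of vertices.** -/
theorem every_avg (n v k lam μ r N : ℕ) (P : Finset (Fin n)) (hP : Pairs v P) (hvn : v * v ≤ n)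
    (hrpos : 0 < r) (hN : N ≤ P.card)
    (h1 : N < 2 ^ lam) (hlm : lam ≤ μ) (h2 : 270 * (lam ^ 3 * μ ^ 2) ≤ k)
    (h3 : 2 * k ≤ v) (h4 : 2 ^ 32 * r * (lam ^ 5 * μ ^ 4) ≤ N) (hN1 : 1 ≤ N) :
    ∃ (D : (Fin n → Bool) → ℝ) (z : Fin n → Bool) (P' : Equiv.Perm (Fin n) → ℝ),
      (∀ x, 0 ≤ D x) ∧ ∑ x, D x = 1 ∧ (∀ x, D x ≠ 0 → ∀ a, a ∉ P → x a = z a) ∧
      (∀ π, 0 ≤ P' π) ∧ ∑ π, P' π = 1 ∧
      ∀ f : (Fin n → Bool) → Prop, ReadsClique v k f →
      ∀ C : Net n, C.Monotone → C.size ≤ 2 ^ μ →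
        C.agree D f ≤ 1 / 2 + 2 * (1 + ∑ π, P' π * (C.activity P z π : ℝ)) / r := by
  classical
  have hlam1 : 1 ≤ lam := by
    by_contra h0
    have : lam = 0 := by omega
    subst this
    simp only [pow_zero] at h1
    omega
  have hμ1 : 1 ≤ μ := hlam1.trans hlm
  set l := μ + lam + 1 with hl
  set m := 2 + μ + lam + lam * (2 * l) with hm
  set R := 2 * (r * m) with hR
  have hmpos : 0 < m := by omega
  have hRpos : 0 < R := by positivity
  set q₀ := 8 * l * R with hq₀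
  have hq₀pos : 0 < q₀ := by positivity
  set κ := Nat.clog 4 q₀ with hκ
  have hq1 : q₀ ≤ 4 ^ κ := Nat.le_pow_clog (by norm_num) _
  have hlμ : 1 ≤ lam * μ := Nat.mul_pos hlam1 hμ1
  have hμlμ : μ ≤ lam * μ := Nat.le_mul_of_pos_left _ hlam1
  have hlamlμ : lam ≤ lam * μ := Nat.le_mul_of_pos_right _ hμ1
  have hl3 : l ≤ 3 * μ := by omega
  have hm10 : m ≤ 10 * (lam * μ) := by
    have h5 : lam * (2 * l) ≤ lam * (4 * μ + 2) := Nat.mul_le_mul_left _ (by omega)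
    have h6 : lam * (4 * μ + 2) = 4 * (lam * μ) + 2 * lam := by ring
    omega
  have hq₀le : q₀ ≤ 480 * (r * lam * μ ^ 2) := by
    calc q₀ = 16 * (l * (r * m)) := by rw [hq₀, hR]; ring
      _ ≤ 16 * ((3 * μ) * (r * (10 * (lam * μ)))) := by gcongr
      _ = 480 * (r * lam * μ ^ 2) := by ring
  have hq₀ge : 32 * (lam * μ) ≤ q₀ := by
    calc 32 * (lam * μ) = 16 * (1 * (1 * (lam * (2 * μ)))) := by ring
      _ ≤ 16 * (l * (r * m)) := by
        gcongr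
        · omega
        · omega
        · have : lam * (2 * μ) ≤ lam * (2 * l) := Nat.mul_le_mul_left _ (by omega)
          omega
      _ = q₀ := by rw [hq₀, hR]; ring
  have hκ1 : 1 ≤ κ := Nat.clog_pos (by norm_num) (by omega)
  have hq2 : 4 ^ κ ≤ 1920 * (r * lam * μ ^ 2) := by
    have : 4 ^ (κ - 1) < q₀ := Nat.pow_pred_clog_lt_self (by norm_num) (by omega)
    calc 4 ^ κ = 4 * 4 ^ (κ - 1) := by
          rw [← pow_succ']; congr 1; omega
      _ ≤ 4 * (480 * (r * lam * μ ^ 2)) := by gcongr; omega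
      _ = _ := by ring
  have hpow : ∀ a b c d : ℕ, a ≤ b → c ≤ d → lam ^ a * μ ^ c ≤ lam ^ b * μ ^ d :=
    fun a b c d h h' => Nat.mul_le_mul (Nat.pow_le_pow_right hlam1 h)
      (Nat.pow_le_pow_right hμ1 h')
  have h4κ : 4 ^ κ < 2 ^ lam := by
    calc 4 ^ κ ≤ 1920 * (r * lam * μ ^ 2) := hq2
      _ = 1920 * r * (lam ^ 1 * μ ^ 2) := by ring
      _ ≤ 2 ^ 32 * r * (lam ^ 5 * μ ^ 4) :=
        Nat.mul_le_mul (Nat.mul_le_mul_right _ (by norm_num)) (hpow 1 5 2 4 (by omega) (by omega))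
      _ ≤ N := h4
      _ < 2 ^ lam := h1
  have hκμ : 2 * κ ≤ lam := by
    have : (2:ℕ) ^ (2 * κ) < 2 ^ lam := by rw [pow_mul]; norm_num; exact h4κ
    exact ((Nat.pow_lt_pow_iff_right (by norm_num)).1 this).le
  set d := 2 * l with hd
  set D := 2 * κ * d with hD
  set M := D + lam with hM
  have hDpos : 0 < D := by positivity
  have hM1 : 1 ≤ M := by omega
  have hD6 : D ≤ 6 * (lam * μ) := by
    calc D = (2 * κ) * (2 * l) := by rw [hD, hd]
      _ ≤ lam * (2 * (3 * μ)) := by gcongr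
      _ = 6 * (lam * μ) := by ring
  have hM7 : M ≤ 7 * (lam * μ) := by omega
  have hM4 : M ≤ 4 ^ κ := by omega
  have hd4 : d ≤ 4 ^ κ := by omega
  obtain ⟨A, hA⟩ := exists_code (M := M) (κ := κ) (d := d) hκ1 hM4 hd4
  -- counts
  have hMκD : M * (2 * κ) * D ≤ 42 * (lam ^ 3 * μ ^ 2) := by
    calc M * (2 * κ) * D ≤ (7 * (lam * μ)) * lam * (6 * (lam * μ)) := by gcongr
      _ = 42 * (lam ^ 3 * μ ^ 2) := by ring
  have h14 : lam * μ ≤ lam ^ 3 * μ ^ 2 := by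
    calc lam * μ = lam ^ 1 * μ ^ 1 := by ring
      _ ≤ _ := hpow 1 3 1 2 (by omega) (by omega)
  have h144 : 144 * ((9 * M) ^ 2 * (8 * κ ^ 2 * 4 ^ κ)) ≤ N := by
    calc 144 * ((9 * M) ^ 2 * (8 * κ ^ 2 * 4 ^ κ))
        = 144 * ((9 * M) ^ 2 * (2 * (2 * κ) ^ 2 * 4 ^ κ)) := by ring
      _ ≤ 144 * ((9 * (7 * (lam * μ))) ^ 2 * (2 * lam ^ 2 * (1920 * (r * lam * μ ^ 2)))) := by
        gcongr
      _ = 2194698240 * r * (lam ^ 5 * μ ^ 4) := by ring
      _ ≤ 2 ^ 32 * r * (lam ^ 5 * μ ^ 4) := by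
        gcongr
        norm_num
      _ ≤ N := h4
  have hMM : 144 * (M * 4 ^ κ) ≤ N := by
    refine le_trans ?_ h144
    have e1 : M ≤ (9 * M) ^ 2 := by nlinarith
    have e2 : 4 ^ κ ≤ 8 * κ ^ 2 * 4 ^ κ := Nat.le_mul_of_pos_left _ (by positivity)
    exact Nat.mul_le_mul_left _ (Nat.mul_le_mul e1 e2)
  obtain ⟨Q, hQ1, hQ2, hQ3⟩ := exists_pairs P hP
  obtain ⟨F, hF1, hF2, hF3⟩ := exists_frame (κ := κ) hM1 hκ1 Q hQ1 (by omega)
  set u₀ := k - (M * (2 * κ) * D + Fintype.card F.J) with hu₀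
  set ρ := v - (4 * (M * (2 * κ) * D) + (F.Z.card + u₀)) with hρ
  have hc : Fintype.card (TV F D u₀ ρ) = v := by
    rw [card_TV]
    omega
  obtain ⟨e, he⟩ := exists_roles F hc
  have hinp : ∀ X : Finset (Fin M × Sy κ), ∀ i : Fin n, i ∉ P →
      inp (sigE n A e) X i = inp (sigE n A e) ∅ i := by
    intro X i hi
    obtain ⟨c, hc⟩ := sigE_const hF1 hQ3 A e he i hi
    unfold inp
    rw [hc]
  have hk2 : 2 ≤ k := by
    have : 1 ≤ lam ^ 3 * μ ^ 2 := hlμ.trans h14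
    omega
  have hkk : k = Fintype.card (TB F D u₀) := by
    rw [card_TB]
    omega
  have hr1 : r ≤ 2 ^ 32 * r * (lam ^ 5 * μ ^ 4) := by
    calc r = 1 * r * (lam ^ 0 * μ ^ 0) := by ring
      _ ≤ 2 ^ 32 * r * (lam ^ 5 * μ ^ 4) :=
        Nat.mul_le_mul (Nat.mul_le_mul_right _ (by norm_num)) (hpow 0 5 0 4 (by omega) (by omega))
  have hr2 : r ≤ 2 ^ lam := by omega
  have hW : r * Fintype.card (Fin D → ZMod 2) ≤ 2 ^ M := by
    rw [Fintype.card_fun, ZMod.card, Fintype.card_fin, hM, pow_add, mul_comm]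
    exact Nat.mul_le_mul_left _ hr2
  have hs1 : 2 * (2 ^ μ * r) ≤ 2 ^ l := by
    calc 2 * (2 ^ μ * r) ≤ 2 * (2 ^ μ * 2 ^ lam) := by gcongr
      _ = 2 ^ l := by rw [hl]; ring
  have hcV : Fintype.card (Fin M × Sy κ) + 1 ≤ 2 ^ lam := by
    have : Fintype.card (Fin M × Sy κ) = M * 4 ^ κ := by
      rw [Fintype.card_prod, Fintype.card_fun, ZMod.card, Fintype.card_prod, Fintype.card_bool,
        Fintype.card_fin, Fintype.card_fin, pow_mul]
      norm_num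
    rw [this]
    omega
  have hsm : (small (Fin M × Sy κ) (2 * l)).card ≤ 2 ^ (lam * (2 * l)) := by
    refine (card_small_le _ _).trans ?_
    rw [pow_mul 2 lam (2 * l)]
    exact Nat.pow_le_pow_left hcV _
  have hs2 : 4 * (2 ^ μ * r * (small (Fin M × Sy κ) (2 * l)).card) ≤ 2 ^ m := by
    calc 4 * (2 ^ μ * r * (small (Fin M × Sy κ) (2 * l)).card) ≤
        4 * (2 ^ μ * 2 ^ lam * 2 ^ (lam * (2 * l))) := by gcongr
      _ = 2 ^ m := by rw [hm, pow_add, pow_add, pow_add]; ring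
  obtain ⟨D', Ω, _, P₁, X, d1, d2, d2', d3, d4, d5, d5', d6⟩ := core_avg
    (V := Fin M × Sy κ) (W := Fin D → ZMod 2) (gr A) (l := l)
    (m := m) (R := R) (q := 4 ^ κ) (r := r) (s := 2 ^ μ) (M := M) (T := r) (by omega) hmpos
    hRpos hq1 le_rfl hrpos hs1 hs2 hW (fun w => by rw [card_gr]) (fun S hS => by
      have := hA S hS
      convert this)
    le_rfl (sigE n A e)
  obtain ⟨P', e1, e2, e3⟩ := to_orders P (inp (sigE n A e) ∅) P₁ X d3 d4 d5
    (fun ω j a ha => by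
      obtain ⟨Z, hZ⟩ := d5' ω j
      rw [hZ, hinp Z a ha]) r
  refine ⟨D', inp (sigE n A e) ∅, P', d1, d2, ?_, e1, e2, fun f hf C hC hs => (d6 f (fun X =>
      reads_sigE hvn hDpos hκ1 A e X hkk hk2 hf) C hC hs).trans ?_⟩
  · intro x hx a ha
    obtain ⟨Z, hZ⟩ := d2' x hx
    rw [hZ, hinp Z a ha]
  have hr0 : (0:ℝ) < r := by exact_mod_cast hrpos
  have h5 := e3 C
  have h6 : 2 * (1 + ∑ ω, P₁ ω * (C.changes (X ω) r : ℝ)) / (r:ℝ) ≤
      2 * (1 + ∑ π, P' π * (C.activity P (inp (sigE n A e) ∅) π : ℝ)) / r :=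
    div_le_div_of_nonneg_right (by linarith) hr0.le
  linarith

end Pool.Agent.V8H38.EU
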