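import Pool.Agent.V8H38.EU.Extract

/-!
# Every set of pairs of vertices contains a frame with few vertices
-/

namespace Pool.Agent.V8H38.EU

open Finset
open Pool.Agent.V8H38.EV (cls exists_good)

variable {v M κ : ℕ}

theorem card_Sy : Fintype.card (Sy κ) = 4 ^ κ := by
  rw [Fintype.card_fun, Fintype.card_prod, Fintype.card_bool, Fintype.card_fin, ZMod.card, pow_mul]
  norm_num

/-- a star contains a frame -/
theorem star_frame (hM : 1 ≤ M) (s : Fin v) (L : Finset (Fin v)) (hs : s ∉ L)
    (hL : M * 4 ^ κ ≤ L.card) : ∃ F : Frame v M κ, (∀ i c, F.a i c = s ∧ F.b i c ∈ L) ∧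
      F.Z.card ≤ M * 4 ^ κ + 1 ∧ Fintype.card F.J ≤ 2 * M := by
  classical
  have hcard : Fintype.card (Fin M × Sy κ) ≤ Fintype.card {x // x ∈ L} := by
    rw [Fintype.card_prod, card_Sy, Fintype.card_fin, Fintype.card_coe]
    exact hL
  obtain ⟨ψ⟩ := Function.Embedding.nonempty_of_card_le hcard
  have i0 : Fin M := ⟨0, hM⟩
  let part : Fin v → Option (Fin M) := fun z =>
    if z = s then none
    else if h : ∃ x, ((ψ x : {x // x ∈ L}) : Fin v) = z then some h.choose.1 else some i0
  let bit : Fin M → Fin v → Bool × Fin κ → ZMod 2 := fun _ z t =>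
    if h : ∃ x, ((ψ x : {x // x ∈ L}) : Fin v) = z then h.choose.2 t else 0
  have hps : part s = none := by simp only [part, if_pos]
  have hch : ∀ i c (h : ∃ x, ((ψ x : {x // x ∈ L}) : Fin v) = (ψ (i, c) : {x // x ∈ L})),
      h.choose = (i, c) := fun i c h => ψ.injective (Subtype.ext h.choose_spec)
  have hpb : ∀ i c, part (ψ (i, c) : {x // x ∈ L}) = some i := by
    intro i c
    have h1 : ((ψ (i, c) : {x // x ∈ L}) : Fin v) ≠ s := by
      intro h
      apply hs
      rw [← h]
      exact (ψ (i, c)).2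
    have h2 : ∃ x, ((ψ x : {x // x ∈ L}) : Fin v) = (ψ (i, c) : {x // x ∈ L}) := ⟨(i, c), rfl⟩
    simp only [part]
    rw [if_neg h1, dif_pos h2, hch i c h2]
  let F : Frame v M κ :=
    { J := Option (Fin M)
      fJ := inferInstance
      dJ := inferInstance
      Z := insert s (Finset.univ.image fun x => ((ψ x : {x // x ∈ L}) : Fin v))
      part := part
      a := fun _ _ => s
      b := fun i c => (ψ (i, c) : {x // x ∈ L})
      jA := fun _ => none
      jB := fun i => some i
      aZ := fun _ _ => Finset.mem_insert_self _ _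
      bZ := fun i c => Finset.mem_insert_of_mem (Finset.mem_image_of_mem _ (Finset.mem_univ _))
      pa := fun _ _ => hps
      pb := hpb
      hAB := fun _ _ => by simp
      hB := Option.some_injective _
      cov := by
        rintro (_ | j)
        · exact Or.inl ⟨i0, rfl⟩
        · exact Or.inr ⟨j, rfl⟩
      cons := fun _ _ _ _ _ _ => rfl
      vis := fun _ _ => false
      bit := bit
      bA := fun _ _ _ h => by simp at h
      bB := by
        intro i c t _
        have h2 : ∃ x, ((ψ x : {x // x ∈ L}) : Fin v) = (ψ (i, c) : {x // x ∈ L}) :=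
          ⟨(i, c), rfl⟩
        simp only [bit]
        rw [dif_pos h2, hch i c h2] }
  refine ⟨F, fun i c => ⟨rfl, (ψ (i, c)).2⟩, ?_, ?_⟩
  · have h1 : F.Z.card ≤ (Finset.univ.image fun x => ((ψ x : {x // x ∈ L}) : Fin v)).card + 1 :=
      Finset.card_insert_le _ _
    have h2 : (Finset.univ.image fun x => ((ψ x : {x // x ∈ L}) : Fin v)).card ≤ M * 4 ^ κ := by
      refine Finset.card_image_le.trans ?_
      rw [Finset.card_univ, Fintype.card_prod, card_Sy, Fintype.card_fin]
    omega
  · have : Fintype.card F.J = M + 1 := by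
      show Fintype.card (Option (Fin M)) = M + 1
      rw [Fintype.card_option, Fintype.card_fin]
    omega

/-- the number of vertices of a class -/
def siz {G : ℕ} (χ : Fin v → Fin G × Bool) (g : Fin G) : ℕ :=
  (Finset.univ.filter fun x : Fin v => (χ x).1 = g).card

theorem sum_siz {G : ℕ} (χ : Fin v → Fin G × Bool) : ∑ g, siz χ g = v := by
  classical
  have := Finset.card_eq_sum_card_fiberwise (s := (Finset.univ : Finset (Fin v)))
    (t := (Finset.univ : Finset (Fin G))) (f := fun x => (χ x).1) (fun x _ => Finset.mem_univ _)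
  rw [Finset.card_univ, Fintype.card_fin] at this
  unfold siz
  exact this.symm

/-- few classes are large -/
theorem few_large {G : ℕ} (χ : Fin v → Fin G × Bool) (B : Finset (Fin G)) (hB : 9 * M ≤ B.card) :
    M ≤ (B.filter fun g => 8 * M * siz χ g ≤ v).card := by
  classical
  set big := B.filter fun g => ¬ 8 * M * siz χ g ≤ v with hbig
  have h1 : (B.filter fun g => 8 * M * siz χ g ≤ v).card + big.card = B.card :=
    Finset.card_filter_add_card_filter_not _
  have h2 : big.card * (v + 1) ≤ 8 * M * v := by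
    calc big.card * (v + 1) = ∑ g ∈ big, (v + 1) := by rw [Finset.sum_const, smul_eq_mul]
      _ ≤ ∑ g ∈ big, 8 * M * siz χ g := by
        refine Finset.sum_le_sum fun g hg => ?_
        rw [hbig, Finset.mem_filter] at hg
        have := hg.2
        omega
      _ ≤ ∑ g, 8 * M * siz χ g := Finset.sum_le_sum_of_subset (Finset.subset_univ _)
      _ = 8 * M * v := by rw [← Finset.mul_sum, sum_siz]
  have h3 : big.card ≤ 8 * M := by
    by_contra h
    push Not at h
    have : (8 * M + 1) * (v + 1) ≤ big.card * (v + 1) := Nat.mul_le_mul_right _ h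
    have h4 : (8 * M + 1) * (v + 1) = 8 * M * v + (8 * M + v + 1) := by ring
    omega
  omega

/-- good classes contain a frame -/
theorem class_frame (hM : 1 ≤ M) (hκ : 1 ≤ κ) {G : ℕ} (Q : Finset (Fin v × Fin v))
    (χ : Fin v → Fin G × Bool) (g : Fin M → Fin G) (hg : Function.Injective g)
    (h : ∀ i, 8 * κ ^ 2 * 4 ^ κ ≤ (cls Q χ (g i)).card) (hs : ∀ i, 8 * M * siz χ (g i) ≤ v) :
    ∃ F : Frame v M κ, (∀ i c, (F.a i c, F.b i c) ∈ Q) ∧
      8 * F.Z.card ≤ v ∧ Fintype.card F.J ≤ 2 * M := by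
  classical
  choose vis bit a b hab hA hB using fun i => extract hκ (cls Q χ (g i)) (h i)
  have hφ : ∀ i c, (a i c, b i c) ∈ Q ∧ χ (a i c) = (g i, false) ∧ χ (b i c) = (g i, true) := by
    intro i c
    have := hab i c
    unfold cls at this
    rw [Finset.mem_filter] at this
    exact this
  have i0 : Fin M := ⟨0, hM⟩
  let part : Fin v → Fin M × Bool := fun z =>
    if h : ∃ i, g i = (χ z).1 then (h.choose, (χ z).2) else (i0, false)
  have hpart : ∀ z i s, χ z = (g i, s) → part z = (i, s) := by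
    intro z i s hz
    have h2 : ∃ i', g i' = (χ z).1 := ⟨i, by rw [hz]⟩
    simp only [part]
    rw [dif_pos h2]
    have h3 : h2.choose = i := by
      apply hg
      rw [h2.choose_spec, hz]
    rw [h3, hz]
  let F : Frame v M κ :=
    { J := Fin M × Bool
      fJ := inferInstance
      dJ := inferInstance
      Z := Finset.univ.biUnion fun i : Fin M =>
        Finset.univ.filter fun x : Fin v => (χ x).1 = g i
      part := part
      a := a
      b := b
      jA := fun i => (i, false)
      jB := fun i => (i, true)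
      aZ := fun i c => Finset.mem_biUnion.2 ⟨i, Finset.mem_univ _,
        Finset.mem_filter.2 ⟨Finset.mem_univ _, by rw [(hφ i c).2.1]⟩⟩
      bZ := fun i c => Finset.mem_biUnion.2 ⟨i, Finset.mem_univ _,
        Finset.mem_filter.2 ⟨Finset.mem_univ _, by rw [(hφ i c).2.2]⟩⟩
      pa := fun i c => hpart _ _ _ (hφ i c).2.1
      pb := fun i c => hpart _ _ _ (hφ i c).2.2
      hAB := fun _ _ => by simp
      hB := fun i i' h => (Prod.mk.inj h).1
      cov := by
        rintro ⟨j, s⟩
        cases s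
        · exact Or.inl ⟨j, rfl⟩
        · exact Or.inr ⟨j, rfl⟩
      cons := fun i i' hne h => absurd (Prod.mk.inj h).1 hne
      vis := vis
      bit := bit
      bA := fun i c s hs => hA i c s hs
      bB := fun i c s hs => hB i c s hs }
  refine ⟨F, fun i c => (hφ i c).1, ?_, ?_⟩
  · have h1 : F.Z.card ≤ ∑ i : Fin M, siz χ (g i) := Finset.card_biUnion_le
    have h2 : M * (8 * F.Z.card) ≤ M * v := by
      calc M * (8 * F.Z.card) ≤ M * (8 * ∑ i : Fin M, siz χ (g i)) := by gcongr
        _ = ∑ i : Fin M, 8 * M * siz χ (g i) := by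
          rw [← Finset.mul_sum]
          ring
        _ ≤ ∑ i : Fin M, v := Finset.sum_le_sum fun i _ => hs i
        _ = M * v := by rw [Finset.sum_const, Finset.card_univ, Fintype.card_fin, smul_eq_mul]
    exact Nat.le_of_mul_le_mul_left h2 hM
  · have : Fintype.card F.J = M * 2 := by
      show Fintype.card (Fin M × Bool) = M * 2
      rw [Fintype.card_prod, Fintype.card_fin, Fintype.card_bool]
    omega

/-- **Every set of pairs contains a frame.** -/
theorem exists_frame (hM : 1 ≤ M) (hκ : 1 ≤ κ) (Q : Finset (Fin v × Fin v))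
    (hQ : ∀ e ∈ Q, e.1 < e.2) (h : 144 * ((9 * M) ^ 2 * (8 * κ ^ 2 * 4 ^ κ)) ≤ Q.card) :
    ∃ F : Frame v M κ, Inside F Q ∧ 8 * F.Z.card ≤ v ∧ Fintype.card F.J ≤ 2 * M := by
  classical
  have h8 : 16 * (M * 4 ^ κ) ≤ 9 * M * (8 * κ ^ 2 * 4 ^ κ) := by
    have h1 : 1 ≤ κ ^ 2 := Nat.one_le_pow _ _ hκ
    calc 16 * (M * 4 ^ κ) ≤ 72 * 1 * (M * 4 ^ κ) := by gcongr; norm_num
      _ ≤ 72 * κ ^ 2 * (M * 4 ^ κ) := by gcongr
      _ = 9 * M * (8 * κ ^ 2 * 4 ^ κ) := by ring
  have hpos : 1 ≤ M * 4 ^ κ := Nat.mul_pos hM (by positivity)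
  by_cases h1 : ∃ s, 9 * M * (8 * κ ^ 2 * 4 ^ κ) ≤ (Q.filter fun e => e.1 = s).card
  · obtain ⟨s, hs⟩ := h1
    set L := (Q.filter fun e => e.1 = s).image Prod.snd with hL
    have hLc : 9 * M * (8 * κ ^ 2 * 4 ^ κ) ≤ L.card := by
      rw [hL, Finset.card_image_of_injOn]
      · exact hs
      · intro e he f hf hef
        simp only [Finset.coe_filter, Set.mem_ofPred_eq] at he hf
        exact Prod.ext (he.2.trans hf.2.symm) hef
    have hLv : L.card ≤ v := by
      have := Finset.card_le_univ L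
      rwa [Fintype.card_fin] at this
    have hmem : ∀ b ∈ L, (s, b) ∈ Q := by
      intro b hb
      obtain ⟨e, he, rfl⟩ := Finset.mem_image.1 hb
      rw [Finset.mem_filter] at he
      rw [← he.2]
      exact he.1
    obtain ⟨F, hF1, hF2, hF3⟩ := star_frame (κ := κ) hM s L (fun h => lt_irrefl _ (hQ _ (hmem s h)))
      (by omega)
    refine ⟨F, fun i c => Or.inl ?_, by omega, hF3⟩
    have h3 := hF1 i c
    have h4 := hmem _ h3.2
    rw [h3.1]
    exact ⟨hQ _ h4, h4⟩
  by_cases h2 : ∃ s, 9 * M * (8 * κ ^ 2 * 4 ^ κ) ≤ (Q.filter fun e => e.2 = s).card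
  · obtain ⟨s, hs⟩ := h2
    set L := (Q.filter fun e => e.2 = s).image Prod.fst with hL
    have hLc : 9 * M * (8 * κ ^ 2 * 4 ^ κ) ≤ L.card := by
      rw [hL, Finset.card_image_of_injOn]
      · exact hs
      · intro e he f hf hef
        simp only [Finset.coe_filter, Set.mem_ofPred_eq] at he hf
        exact Prod.ext hef (he.2.trans hf.2.symm)
    have hLv : L.card ≤ v := by
      have := Finset.card_le_univ L
      rwa [Fintype.card_fin] at this
    have hmem : ∀ b ∈ L, (b, s) ∈ Q := by
      intro b hb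
      obtain ⟨e, he, rfl⟩ := Finset.mem_image.1 hb
      rw [Finset.mem_filter] at he
      rw [← he.2]
      exact he.1
    obtain ⟨F, hF1, hF2, hF3⟩ := star_frame (κ := κ) hM s L (fun h => lt_irrefl _ (hQ _ (hmem s h)))
      (by omega)
    refine ⟨F, fun i c => Or.inr ?_, by omega, hF3⟩
    have h3 := hF1 i c
    have h4 := hmem _ h3.2
    rw [h3.1]
    exact ⟨hQ _ h4, h4⟩
  · push Not at h1 h2
    have hq : 1 ≤ 8 * κ ^ 2 * 4 ^ κ := Nat.mul_pos (by positivity) (by positivity)
    obtain ⟨χ, hχ⟩ := exists_good (M := 9 * M) (by omega) (8 * κ ^ 2 * 4 ^ κ) hq Q hQ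
      (fun a => (h1 a).le) (fun a => (h2 a).le) h
    set B := (Finset.univ.filter fun g : Fin (3 * (9 * M)) =>
      8 * κ ^ 2 * 4 ^ κ ≤ (cls Q χ g).card) with hB
    have hfew := few_large χ B hχ
    set B' := (B.filter fun g => 8 * M * siz χ g ≤ v) with hB'
    have hcard : Fintype.card (Fin M) ≤ Fintype.card {g // g ∈ B'} := by
      rw [Fintype.card_fin, Fintype.card_coe]
      exact hfew
    obtain ⟨φ⟩ := Function.Embedding.nonempty_of_card_le hcard
    have hφ : ∀ i, (φ i : Fin (3 * (9 * M))) ∈ B ∧ 8 * M * siz χ (φ i) ≤ v := fun i =>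
      Finset.mem_filter.1 (φ i).2
    obtain ⟨F, hF1, hF2, hF3⟩ := class_frame (κ := κ) hM hκ Q χ
      (fun i => (φ i : Fin (3 * (9 * M))))
      (fun i j hij => φ.injective (Subtype.ext hij)) (fun i => (Finset.mem_filter.1 (hφ i).1).2)
      (fun i => (hφ i).2)
    exact ⟨F, fun i c => Or.inl ⟨hQ _ (hF1 i c), hF1 i c⟩, hF2, hF3⟩

end Pool.Agent.V8H38.EU
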