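import Pool.Agent.V8H38.EU.Clq
import Pool.Agent.V8H38.EV.Subst

/-!
# The substitution of a frame into the input of a clique function
-/

namespace Pool.Agent.V8H38.EU

open Finset
open Pool.Agent.V8H38.NL (Chk evl gr inp getD_ofFn')
open Pool.Agent.V8H38.EV (bitAt ReadsClique index_lt index_eq)

variable {v M κ D u₀ ρ n : ℕ} {F : Frame v M κ}

/-- the substitution -/
noncomputable def sigE (n : ℕ) (A : Fin M → Bool × Fin κ → Fin D → ZMod 2)
    (e : Fin v ≃ TV F D u₀ ρ) (i : Fin n) : Bool ⊕ (Fin M × Sy κ) :=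
  if h : (i : ℕ) < v * v then
    if (finProdFinEquiv.symm (⟨i, h⟩ : Fin (v * v))).1 <
        (finProdFinEquiv.symm (⟨i, h⟩ : Fin (v * v))).2 then
      labE A (e (finProdFinEquiv.symm (⟨i, h⟩ : Fin (v * v))).1)
        (e (finProdFinEquiv.symm (⟨i, h⟩ : Fin (v * v))).2)
    else Sum.inl false
  else Sum.inl false

theorem bit_sigE (hvn : v * v ≤ n) (A : Fin M → Bool × Fin κ → Fin D → ZMod 2)
    (e : Fin v ≃ TV F D u₀ ρ) (X : Finset (Fin M × Sy κ)) (a b : Fin v) (hab : a < b) :
    bitAt (inp (sigE n A e) X) ((a : ℕ) * v + (b : ℕ)) = evl X (labE A (e a) (e b)) := by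
  have h1 := index_lt a b
  have h2 := index_eq a b
  unfold bitAt
  rw [dif_pos (by omega)]
  have h3 : ∀ (σ : Fin n → Bool ⊕ (Fin M × Sy κ)) (j : Fin n), inp σ X j = evl X (σ j) := by
    intro σ j
    unfold inp evl
    rfl
  rw [h3]
  unfold sigE
  simp only
  rw [dif_pos h1, h2, Equiv.symm_apply_apply, if_pos hab]

theorem reads_sigE (hvn : v * v ≤ n) (hD : 0 < D) (hκ : 0 < κ)
    (A : Fin M → Bool × Fin κ → Fin D → ZMod 2)
    (e : Fin v ≃ TV F D u₀ ρ) (X : Finset (Fin M × Sy κ)) {k : ℕ}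
    (hk : k = Fintype.card (TB F D u₀)) (hk2 : 2 ≤ k) {f : (Fin n → Bool) → Prop}
    (hf : ReadsClique v k f) : f (inp (sigE n A e) X) ↔ ∃ w, gr A w ⊆ X := by
  rw [hf, ← clique_gphE hD hκ A e X hk hk2]
  constructor
  · rintro ⟨S, hS, h⟩
    refine ⟨S, hS, fun a ha b hb hab => ?_⟩
    rcases lt_or_gt_of_ne hab with h5 | h5
    · have := h a ha b hb h5
      rw [bit_sigE hvn A e X a b h5] at this
      exact this
    · have := h b hb a ha h5
      rw [bit_sigE hvn A e X b a h5, labE_comm] at this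
      exact this
  · rintro ⟨S, hS, h⟩
    refine ⟨S, hS, fun a ha b hb hab => ?_⟩
    rw [bit_sigE hvn A e X a b hab]
    exact h ha hb hab.ne

/-- the pairs of the frame are in `Q` -/
def Inside (F : Frame v M κ) (Q : Finset (Fin v × Fin v)) : Prop :=
  ∀ i c, (F.a i c < F.b i c ∧ (F.a i c, F.b i c) ∈ Q) ∨
    (F.b i c < F.a i c ∧ (F.b i c, F.a i c) ∈ Q)

/-- the substitution is constant outside of the pairs in `Q` -/
theorem sigE_const {P : Finset (Fin n)} {Q : Finset (Fin v × Fin v)} (hQ : Inside F Q)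
    (hP : ∀ ab ∈ Q, ∀ i : Fin n, (i : ℕ) = (ab.1 : ℕ) * v + (ab.2 : ℕ) → i ∈ P)
    (A : Fin M → Bool × Fin κ → Fin D → ZMod 2)
    (e : Fin v ≃ TV F D u₀ ρ) (he : ∀ z : {z // z ∈ F.Z}, e z = TV.re z)
    (i : Fin n) (hi : i ∉ P) : ∃ c, sigE n A e i = Sum.inl c := by
  unfold sigE
  split_ifs with hlt hab
  · set a := (finProdFinEquiv.symm (⟨i, hlt⟩ : Fin (v * v))).1 with ha
    set b := (finProdFinEquiv.symm (⟨i, hlt⟩ : Fin (v * v))).2 with hb
    have hiab : (i : ℕ) = (a : ℕ) * v + (b : ℕ) := by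
      have h5 : finProdFinEquiv (a, b) = (⟨i, hlt⟩ : Fin (v * v)) := by
        rw [ha, hb, Prod.mk.eta, Equiv.apply_symm_apply]
      have h6 := congrArg Fin.val h5
      rw [finProdFinEquiv_apply_val] at h6
      simp only at h6
      rw [← h6]
      ring
    rcases hea : e a with x | x | x | x <;> rcases heb : e b with y | y | y | y
    case re.re =>
      have e1 : a = x := e.injective (by rw [hea, he])
      have e2 : b = y := e.injective (by rw [heb, he])
      simp only [labE]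
      by_cases h : ∃ t, F.IsEdge x y t
      · exfalso
        apply hi
        obtain ⟨t, ht⟩ := h
        rw [← e1, ← e2] at ht
        rcases ht with ⟨h1, h2⟩ | ⟨h1, h2⟩
        · rcases hQ t.1 t.2 with ⟨_, h4⟩ | ⟨h3, _⟩
          · rw [← h1, ← h2] at h4
            exact hP _ h4 i hiab
          · rw [← h1, ← h2] at h3
            exact absurd h3 (lt_asymm hab)
        · rcases hQ t.1 t.2 with ⟨h3, _⟩ | ⟨_, h4⟩
          · rw [← h1, ← h2] at h3
            exact absurd h3 (lt_asymm hab)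
          · rw [← h1, ← h2] at h4
            exact hP _ h4 i hiab
      · unfold Frame.labR
        rw [dif_neg h]
        exact ⟨_, rfl⟩
    all_goals exact ⟨_, rfl⟩
  · exact ⟨_, rfl⟩
  · exact ⟨_, rfl⟩

/-- the roles of the vertices -/
theorem exists_roles (F : Frame v M κ) (hc : Fintype.card (TV F D u₀ ρ) = v) :
    ∃ e : Fin v ≃ TV F D u₀ ρ, ∀ z : {z // z ∈ F.Z}, e z = TV.re z := by
  classical
  let e₀ : Fin v ≃ TV F D u₀ ρ := Fintype.equivOfCardEq (by rw [Fintype.card_fin, hc])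
  let g : {z // z ∈ F.Z} → Fin v := fun z => e₀.symm (TV.re z)
  have hg : Function.Injective g := by
    intro z z' h
    have := e₀.symm.injective h
    exact TV.re.inj this
  let e₁ : {x // x ∈ F.Z} ≃ {x // x ∈ Set.range g} := Equiv.ofInjective g hg
  refine ⟨(e₁.extendSubtype).trans e₀, fun z => ?_⟩
  rw [Equiv.trans_apply, Equiv.extendSubtype_apply_of_mem e₁ z z.2]
  have : ((e₁ ⟨z, z.2⟩ : {x // x ∈ Set.range g}) : Fin v) = e₀.symm (TV.re z) := rfl
  rw [this, Equiv.apply_symm_apply]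

theorem card_TV (F : Frame v M κ) : Fintype.card (TV F D u₀ ρ) =
    4 * (M * (2 * κ) * D) + (F.Z.card + (u₀ + ρ)) := by
  rw [Fintype.card_congr (tvEquiv F D u₀ ρ), Fintype.card_sum, Fintype.card_sum,
    Fintype.card_sum, Fintype.card_coe, Fintype.card_fin, Fintype.card_fin,
    Fintype.card_prod, Fintype.card_prod, Fintype.card_prod, Fintype.card_prod,
    Fintype.card_prod, Fintype.card_bool, Fintype.card_fin, Fintype.card_fin, Fintype.card_fin,
    ZMod.card]
  ring

theorem card_TB (F : Frame v M κ) : Fintype.card (TB F D u₀) =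
    M * (2 * κ) * D + (Fintype.card F.J + u₀) := by
  rw [Fintype.card_congr (tbEquiv F D u₀), Fintype.card_sum, Fintype.card_sum,
    Fintype.card_fin, Fintype.card_prod, Fintype.card_prod, Fintype.card_prod,
    Fintype.card_bool, Fintype.card_fin, Fintype.card_fin, Fintype.card_fin]
  ring

end Pool.Agent.V8H38.EU
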