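import Pool.Agent.V8H38.NA.Tight

/-!
# The law is tight for every set of variables and every activity
-/

namespace Pool.Agent.V8H38.EU

open Finset
open Pool.Agent.V8H38.NA

variable {n p : ℕ}

/-- a node which reads the input variables at other places -/
def moveNode (e : Fin p → Fin n) : Node p → Node n
  | Node.input i => Node.input (e i)
  | Node.const c => Node.const c
  | Node.sup c l => Node.sup c l
  | Node.gate φ a b => Node.gate φ a b
  | Node.any l φ => Node.any l φ

/-- a circuit which reads the input variables at other places -/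
def move (e : Fin p → Fin n) (C : Net p) : Net n := ⟨C.nodes.map (moveNode e), C.out⟩

theorem vals_move (e : Fin p → Fin n) (x : Fin n → Bool) (l : List (Node p)) :
    vals x (l.map (moveNode e)) = vals (fun i => x (e i)) l := by
  induction l using List.reverseRecOn with
  | nil => rfl
  | append_singleton l g ih =>
    rw [List.map_append, List.map_singleton, vals_append, vals_append, ih]
    cases g <;> rfl

theorem accepts_move (e : Fin p → Fin n) (C : Net p) (x : Fin n → Bool) :
    (move e C).Accepts x ↔ C.Accepts fun i => x (e i) := by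
  unfold Net.Accepts Net.val move
  rw [vals_move]

theorem size_move (e : Fin p → Fin n) (C : Net p) : (move e C).size = C.size := by
  unfold Net.size move
  rw [List.countP_map]
  congr 1
  funext g
  cases g <;> rfl

theorem any_move (e : Fin p → Fin n) (C : Net p) :
    (move e C).nodes.countP Node.isAny = C.nodes.countP Node.isAny := by
  unfold move
  rw [List.countP_map]
  congr 1
  funext g
  cases g <;> rfl

theorem mono_move (e : Fin p → Fin n) (C : Net p) (hC : C.Monotone) : (move e C).Monotone := by
  intro g hg
  obtain ⟨g', hg', rfl⟩ := List.mem_map.1 hg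
  have := hC g' hg'
  cases g' <;> exact this

theorem not_move (e : Fin p → Fin n) (C : Net p)
    (hC : ∀ g ∈ C.nodes, g.isAny = true → ∃ a, g = Node.not a) :
    ∀ g ∈ (move e C).nodes, g.isAny = true → ∃ a, g = Node.not a := by
  intro g hg hany
  obtain ⟨g', hg', rfl⟩ := List.mem_map.1 hg
  have h1 : g'.isAny = true := by
    cases g' <;> exact hany
  obtain ⟨a, ha⟩ := hC g' hg' h1
  exact ⟨a, by rw [ha]; rfl⟩

/-- **Circuits with `t + 1` NOT gates and activity less than `2 ^ (t + 1)` that are right with
probability `1 / 2 + c * 2 ^ t / |P|` if the bits outside `P` are fixed.** -/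
theorem tight_on (n t : ℕ) (P : Finset (Fin n)) (z : Fin n → Bool) (f : (Fin n → Bool) → Prop)
    (D : (Fin n → Bool) → ℝ) (hD0 : ∀ x, 0 ≤ D x) (hD1 : ∑ x, D x = 1)
    (hDz : ∀ x, D x ≠ 0 → ∀ a, a ∉ P → x a = z a) :
    ∃ C : Net n, C.Monotone ∧ C.size ≤ 2 * P.card + 2 * t + 1 ∧
      C.nodes.countP Node.isAny ≤ t + 1 ∧
      (∀ g ∈ C.nodes, g.isAny = true → ∃ a, g = Node.not a) ∧
      (∀ (E : Finset (Fin n)) (z' : Fin n → Bool) (π : Equiv.Perm (Fin n)),
        1 + C.activity E z' π ≤ 2 ^ (t + 1)) ∧
      1 / 2 + 2 ^ t / (2 * (P.card + 2 ^ t)) ≤ C.agree D f := by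
  classical
  let e : Fin P.card ↪o Fin n := P.orderEmbOfFin rfl
  have heP : ∀ i, e i ∈ P := fun i => Finset.orderEmbOfFin_mem P rfl i
  have heS : ∀ a ∈ P, ∃ i, e i = a := by
    intro a ha
    have : a ∈ Set.range (P.orderEmbOfFin rfl) := by
      rw [Finset.range_orderEmbOfFin]
      exact ha
    exact this
  let ext : (Fin P.card → Bool) → Fin n → Bool := fun y a =>
    if h : ∃ i, e i = a then y h.choose else z a
  have hext : ∀ y i, ext y (e i) = y i := by
    intro y i
    have h : ∃ i', e i' = e i := ⟨i, rfl⟩
    simp only [ext]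
    rw [dif_pos h]
    congr 1
    exact e.injective h.choose_spec
  have hback : ∀ x, D x ≠ 0 → ext (fun i => x (e i)) = x := by
    intro x hx
    funext a
    by_cases ha : a ∈ P
    · obtain ⟨i, hi⟩ := heS a ha
      rw [← hi]
      exact hext (fun i => x (e i)) i
    · have h : ¬ ∃ i, e i = a := by
        rintro ⟨i, rfl⟩
        exact ha (heP i)
      simp only [ext]
      rw [dif_neg h, hDz x hx a ha]
  have hinj : Function.Injective ext := by
    intro y y' h
    funext i
    rw [← hext y i, ← hext y' i, h]
  have hsum : ∀ F : (Fin n → Bool) → ℝ, (∀ x, D x = 0 → F x = 0) →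
      ∑ y, F (ext y) = ∑ x, F x := by
    intro F hF
    refine Finset.sum_of_injOn ext hinj.injOn (fun _ _ => Finset.mem_univ _) ?_
      (fun _ _ => rfl)
    intro x _ hx
    apply hF
    by_contra h
    apply hx
    exact ⟨fun i => x (e i), Finset.mem_coe.2 (Finset.mem_univ _), hback x h⟩
  obtain ⟨C, c1, c2, c3, c4, c5⟩ := tight P.card t (fun y => f (ext y)) (fun y => D (ext y))
    (fun y => hD0 _) (by rw [hsum D fun _ h => h, hD1])
  refine ⟨move e C, mono_move _ _ c1, by rw [size_move]; exact c2, by rw [any_move]; exact c3,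
    not_move _ _ c4, ?_, ?_⟩
  · intro E z' π
    refine (activity_combos (mono_move e C c1) (layered_count _) E z' π).trans
      ((combos_count _ (not_move _ _ c4)).trans (Nat.pow_le_pow_right (by norm_num) ?_))
    rw [any_move]
    exact c3
  · refine c5.trans (le_of_eq ?_)
    unfold Net.agree
    rw [← hsum (fun x => if ((move e C).Accepts x ↔ f x) then D x else 0) (fun x hx => by
      simp only [hx, ite_self])]
    refine Finset.sum_congr rfl fun y _ => ?_
    have h1 : (move e C).Accepts (ext y) ↔ C.Accepts y := by
      rw [accepts_move]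
      simp only [hext]
    simp only [h1]

end Pool.Agent.V8H38.EU
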